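import Pool.Agent.Helper56.FM.M_AT

/-!
# Project FM: the atlas of a certificate, geometric facts as propositions
-/

set_option autoImplicit false

open Set Filter Topology

noncomputable section

namespace Pool.Agent.Helper62.FM

open Pool.Agent.Helper54.TRI Pool.Agent.Helper56.FM

/-- Algebraic part of `Sound`. -/
structure SoundA {Q : Type} (M : Ops Q) (β : ℂ) (e : Q → ℂ) (Γ : ℤ → ℂ → Prop) : Prop where
  one_lt : 1 < ‖β‖
  zero : e M.zero = 0
  one : ∃ c : ℝ, 0 < c ∧ e M.one = (c : ℂ)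
  sub : ∀ u v, e (M.sub u v) = e u - e v
  neg : ∀ u, e (M.neg u) = - e u
  mul : ∀ n u, e (M.mul n u) = β ^ n * e u
  isz : ∀ u, M.isz u = true → e u = 0
  nz : ∀ u, M.nz u = true → e u ≠ 0
  inG : ∀ l u, M.inG l u = true → Γ l (e u)
  g0 : ∀ l, Γ l 0
  gn : ∀ l u, Γ l u → Γ l (-u)
  ga : ∀ (l k : ℤ) u, Γ l u → Γ (l + k) (β ^ k * u)

open Classical in
/-- The operations with the classical orientation test. -/
def clO {Q : Type} (M : Ops Q) (e : Q → ℂ) : Ops Q :=
  { M with pos := fun p q r => decide (0 < ht (e p) (e q) (e r)) }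

theorem sound_clO {Q : Type} {M : Ops Q} {β : ℂ} {e : Q → ℂ} {Γ : ℤ → ℂ → Prop}
    (h : SoundA M β e Γ) : Sound (clO M e) β e Γ where
  one_lt := h.one_lt
  zero := h.zero
  one := h.one
  sub := h.sub
  neg := h.neg
  mul := h.mul
  isz := h.isz
  nz := h.nz
  pos := fun p q r hh => by
    unfold clO at hh
    exact of_decide_eq_true hh
  inG := h.inG
  g0 := h.g0
  gn := h.gn
  ga := h.ga

/-- The copies are translates. -/
def okT {Q : Type} (M : Ops Q) (X : Cert Q) (c : CD) : Bool :=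
  (List.range c.n).all fun a =>
    M.isz (M.sub (M.sub (X.vz M (c.tr a).2.1) (X.vz M (c.tr 0).2.1)) (X.wz M c a)) &&
    M.isz (M.sub (M.sub (X.vz M (c.tr a).2.2) (X.vz M (c.tr 0).2.2)) (X.wz M c a))

/-- Algebraic check of the clusters. -/
def chkA {Q : Type} (M : Ops Q) (X : Cert Q) : Bool := X.CS.all fun c => okT M X c && X.okL M c

/-- Geometric facts about the clusters. -/
structure Geo {Q : Type} (M : Ops Q) (X : Cert Q) (e : Q → ℂ) : Prop where
  pos : ∀ c ∈ X.CS, 0 < ht (X.pt M e (c.tr 0).1) (X.pt M e (c.tr 0).2.1) (X.pt M e (c.tr 0).2.2)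
  nz : ∀ c ∈ X.CS, ∀ a < c.n,
    0 < ht 0 (X.pt M e (c.tr a).2.1) (X.pt M e (c.tr a).1) ∨
    0 < ht 0 (X.pt M e (c.tr a).2.2) (X.pt M e (c.tr a).2.1) ∨
    0 < ht 0 (X.pt M e (c.tr a).1) (X.pt M e (c.tr a).2.2)

private lemma pos_add2 (P : Fin 3 → ℂ) (w : ℂ) (h : Pos P) : Pos (fun s => P s + w) := by
  unfold Pos ht at *
  simp only [add_sub_add_right_eq_sub]
  exact h

/-- **AT2**. -/
theorem at2 (hg : StGG) (g1 : StGP) (g2 : StGW) (g3 : StGT) (g4 : StGE) (hn : StNB) (hc : StCH)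
    (hv : StVL) (ht : StTL) {Q : Type} {M : Ops Q} {β : ℂ} {e : Q → ℂ} {Γ : ℤ → ℂ → Prop}
    (hA : SoundA M β e Γ) (X : Cert Q) (hX : chkA M X = true) (hN : X.chkN M = true)
    (hC : X.chkC = true) (hG : Geo M X e)
    (hS : (∀ a ∈ (cyc X.seam).map (fun a => (X.pt M e a.1, X.pt M e a.2)),
        a.1 ≠ 0 ∧ a.2 / a.1 ∈ Complex.slitPlane) ∧
      (((cyc X.seam).map (fun a => (X.pt M e a.1, X.pt M e a.2))).map
        (fun a => Complex.arg (a.2 / a.1))).sum = 2 * Real.pi)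
    (hD : ∀ a ∈ (cyc X.seam).map (fun a => (X.pt M e a.1, X.pt M e a.2)), a.1 ≠ a.2) :
    (∀ c : Fin X.CS.length, Pos (X.C (clO M e) e c).P) ∧
    ∃ nb : Ix (X.C (clO M e) e) → Fin 3 → Ix (X.C (clO M e) e) × Fin 3 × ℤ,
      Atlas (X.C (clO M e) e) β Γ nb (X.F (clO M e) e) (X.lab (clO M e) e) := by
  have hM := sound_clO hA
  -- the clusters
  have hGL : ∀ c ∈ X.CS, X.okG (clO M e) c = true ∧ X.okL (clO M e) c = true := by
    intro c hc
    unfold chkA at hX
    rw [List.all_eq_true] at hX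
    have hXc := hX c hc
    rw [Bool.and_eq_true] at hXc
    refine ⟨?_, hXc.2⟩
    unfold Cert.okG
    rw [Bool.and_eq_true]
    refine ⟨decide_eq_true (hG.pos c hc), ?_⟩
    rw [List.all_eq_true]
    intro a ha
    have h1 := hXc.1
    unfold okT at h1
    rw [List.all_eq_true] at h1
    have h2 := h1 a ha
    rw [Bool.and_eq_true] at h2
    rw [Bool.and_eq_true, Bool.and_eq_true, Bool.or_eq_true, Bool.or_eq_true]
    refine ⟨h2.1, h2.2, ?_⟩
    have h3 := hG.nz c hc a (List.mem_range.1 ha)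
    have h0 : e (clO M e).zero = 0 := hA.zero
    rcases h3 with h3 | h3 | h3
    · left
      refine decide_eq_true ?_
      rw [h0]
      exact h3
    · right; left
      refine decide_eq_true ?_
      rw [h0]
      exact h3
    · right; right
      refine decide_eq_true ?_
      rw [h0]
      exact h3
  have G1 : ∀ c : Fin X.CS.length, X.Good1 (clO M e) e (X.cl c.val) := fun c =>
    hg Q (clO M e) β e Γ hM X _ (hGL _ (cl_mem X c)).1
  have hG2 : ∀ c : CD, X.okL (clO M e) c = true → X.Good2 (clO M e) e Γ c := by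
    intro c h
    cases c with
    | P t => exact g1 Q (clO M e) β e Γ hM X t h
    | W s t0 t1 => exact g2 Q (clO M e) β e Γ hM X s t0 t1 h
    | T t0 t1 t2 t3 => exact g3 Q (clO M e) β e Γ hM X t0 t1 t2 t3 h
    | E t0 t1 t2 => exact g4 Q (clO M e) β e Γ hM X t0 t1 t2 h
  have G2 : ∀ c : Fin X.CS.length, X.Good2 (clO M e) e Γ (X.cl c.val) := fun c =>
    hG2 _ (hGL _ (cl_mem X c)).2
  refine ⟨fun c => (G1 c).2.1, ?_⟩
  -- the neighbours
  have hnb := hn Q (clO M e) β e Γ hM X hN G1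
  choose nj nt nm h1 h2 h3 h4 h5 using hnb
  refine ⟨fun i s => (nj i s, nt i s, nm i s), ?_⟩
  have hpt : X.pt M e = X.pt (clO M e) e := rfl
  rw [hpt] at hS hD
  have htil : Tiling (Ix (X.C (clO M e) e)) (TT (X.C (clO M e) e)) β
      (fun i s => (nj i s, nt i s, nm i s)) := by
    refine ht (Ix (X.C (clO M e) e)) (TT (X.C (clO M e) e)) β (fun i s => (nj i s, nt i s, nm i s))
      ((cyc X.seam).map (fun a => (X.pt (clO M e) e a.1, X.pt (clO M e) e a.2))) hM.one_lt
      ?_ ?_ h1 h2 (hc Q (clO M e) β e Γ hM X hC G1) hS.1 hD hS.2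
    · intro i
      exact pos_add2 _ _ (G1 i.1).2.1
    · intro i
      exact (G1 i.1).2.2.2 i.2
  exact
    { tiling := htil
      lat := fun l k u hu => hM.ga l k u hu
      ok := fun c => (G2 c).1
      fok := fun i s => (G2 i.1).2.2.2 i.2 s
      form := fun i s t ht0 ht1 => (G2 i.1).2.1 i.2 s t ht0 ht1
      edge := fun i s => h3 i s
      vert := fun i s => (G2 i.1).2.2.1 i.2 s
      vlab := fun i s i' s' k h => hv _ _ _ _ htil (X.lab (clO M e) e) h4 h5 i s i' s' k h }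

end Pool.Agent.Helper62.FM
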