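import Pool.Agent.Helper62.FM.AT2
import Pool.Agent.Helper56.FM.M_SND
import Pool.Agent.Helper56.FM.M_RF

/-!
# Project FM: the algebraic operations of the family
-/

set_option autoImplicit false

open Set Filter Topology Matrix

noncomputable section

namespace Pool.Agent.Helper62.FM

open Pool.Agent.Helper54.TRI Pool.Agent.Helper56.FM

/-- All coefficients have the same sign, not all are zero. -/
def sgP (P : Po) : Bool :=
  ((P.all fun x => decide (0 ≤ x)) && (P.any fun x => decide (0 < x))) ||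
    ((P.all fun x => decide (x ≤ 0)) && (P.any fun x => decide (x < 0)))

/-- Nonzero test. -/
def nzP (v : PQ) : Bool := sgP v.1 || (sgP v.2.1 || sgP v.2.2)

/-- The operations of the family (no orientation test). -/
def opsZ : Ops PQ where
  zero := ([], [], [])
  one := ([], [], [1])
  sub := qsub
  neg := qneg
  mul := pBn
  isz u := pz u.1 && (pz u.2.1 && pz u.2.2)
  nz := nzP
  pos _ _ _ := false
  inG l v := if 1 ≤ l then pz (pAn (l - 1).toNat v).2.1 else pz (pBn (1 - l).toNat v).2.1

theorem pev_nonneg (P : Po) (s : ℝ) (hs : 0 < s) (h : ∀ x ∈ P, 0 ≤ x) : 0 ≤ pev P s := by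
  induction P with
  | nil => simp
  | cons c t ih =>
    rw [pev_cons]
    have h1 : (0 : ℝ) ≤ (c : ℝ) := by exact_mod_cast h c (by simp)
    have h2 := ih (fun x hx => h x (by simp [hx]))
    have := mul_nonneg hs.le h2
    linarith

theorem pev_pos (P : Po) (s : ℝ) (hs : 0 < s) (h : ∀ x ∈ P, 0 ≤ x) (h' : ∃ x ∈ P, 0 < x) :
    0 < pev P s := by
  induction P with
  | nil => obtain ⟨x, hx, -⟩ := h'; simp at hx
  | cons c t ih =>
    rw [pev_cons]
    have h1 : (0 : ℝ) ≤ (c : ℝ) := by exact_mod_cast h c (by simp)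
    have h2 := pev_nonneg t s hs (fun x hx => h x (by simp [hx]))
    obtain ⟨x, hx, hx0⟩ := h'
    rcases List.mem_cons.1 hx with rfl | hx
    · have h3 : (0 : ℝ) < (x : ℝ) := by exact_mod_cast hx0
      have := mul_nonneg hs.le h2
      linarith
    · have h3 := ih (fun x hx => h x (by simp [hx])) ⟨x, hx, hx0⟩
      have := mul_pos hs h3
      linarith

theorem sgP_ne (P : Po) (s : ℝ) (hs : 0 < s) (h : sgP P = true) : pev P s ≠ 0 := by
  unfold sgP at h
  rw [Bool.or_eq_true, Bool.and_eq_true, Bool.and_eq_true, List.all_eq_true, List.any_eq_true,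
    List.all_eq_true, List.any_eq_true] at h
  rcases h with ⟨h1, x, hx, h2⟩ | ⟨h1, x, hx, h2⟩
  · exact (pev_pos P s hs (fun y hy => of_decide_eq_true (h1 y hy))
      ⟨x, hx, of_decide_eq_true h2⟩).ne'
  · have h3 : 0 < pev (pneg P) s := by
      apply pev_pos _ s hs
      · intro y hy
        obtain ⟨z, hz, rfl⟩ := List.mem_map.1 hy
        have := of_decide_eq_true (h1 z hz)
        omega
      · exact ⟨-x, List.mem_map.2 ⟨x, hx, rfl⟩, by have := of_decide_eq_true h2; omega⟩
    rw [pev_pneg] at h3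
    intro h0
    rw [h0] at h3
    simp at h3

/-- First real coordinate. -/
def cX (r s : ℝ) (h : PQ) : ℝ := pev h.2.2 s * s - (r ^ 2 + r + 1) * pev h.2.1 s

/-- Second real coordinate. -/
def cY (r s : ℝ) (h : PQ) : ℝ := pev h.1 s - r * pev h.2.1 s

/-- The real coordinates of the points. -/
theorem ev_XY {s : ℚ} {r : ℝ} {β : ℂ} (hF : Fam s r β) (h : PQ) :
    ev s (starRingEnd ℂ β) h = (cX r s h : ℂ) + (cY r s h : ℂ) * starRingEnd ℂ β := by
  obtain ⟨-, -, -, h4⟩ := m_RF.1 s r β hF
  have h5 := congrArg (starRingEnd ℂ) h4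
  simp only [map_pow, map_sub, map_mul, map_neg, map_add, map_one, Complex.conj_ofReal] at h5
  unfold ev cX cY
  rw [pev_realC, pev_realC, pev_realC]
  push_cast
  linear_combination ((pev h.2.1 (s : ℝ) : ℝ) : ℂ) * h5

theorem nzP_ne {s : ℚ} {r : ℝ} {β : ℂ} (hF : Fam s r β) (hirr : ∀ x : ℚ, x ^ 3 + x ^ 2 + x ≠ s)
    (v : PQ) (h : nzP v = true) : ev s (starRingEnd ℂ β) v ≠ 0 := by
  intro h0
  have hs : (0 : ℝ) < (s : ℝ) := by
    rw [← hF.real]
    have := hF.pos
    positivity
  rw [ev_XY hF] at h0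
  have him := congrArg Complex.im h0
  have hre := congrArg Complex.re h0
  simp only [Complex.add_im, Complex.mul_im, Complex.ofReal_im, Complex.ofReal_re, Complex.conj_im,
    Complex.conj_re, Complex.zero_im, Complex.zero_re, Complex.add_re, Complex.mul_re, zero_mul,
    add_zero, zero_add, mul_neg, neg_eq_zero, mul_eq_zero] at him hre
  have hY : cY r s v = 0 := him.resolve_right hF.im.ne'
  rw [hY] at hre
  replace hre : cX r s v = 0 := by linarith
  unfold cY at hY
  unfold cX at hre
  have e2 : pev v.2.1 (s : ℝ) = 0 := by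
    by_contra hne
    have hr : r = ((pev v.1 s / pev v.2.1 s : ℚ) : ℝ) := by
      have a1 : pev v.1 (s : ℝ) = ((pev v.1 s : ℚ) : ℝ) := by
        have := pev_realC v.1 s
        rw [pev_rat] at this
        exact_mod_cast this.symm
      have a2 : pev v.2.1 (s : ℝ) = ((pev v.2.1 s : ℚ) : ℝ) := by
        have := pev_realC v.2.1 s
        rw [pev_rat] at this
        exact_mod_cast this.symm
      push_cast
      rw [← a1, ← a2]
      field_simp
      linarith
    have hreal := hF.real
    rw [hr] at hreal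
    exact hirr _ (by exact_mod_cast hreal)
  have e1 : pev v.1 (s : ℝ) = 0 := by
    rw [e2] at hY
    linarith
  have e3 : pev v.2.2 (s : ℝ) = 0 := by
    rw [e2, mul_zero, sub_zero] at hre
    exact (mul_eq_zero.1 hre).resolve_right hs.ne'
  unfold nzP at h
  rw [Bool.or_eq_true, Bool.or_eq_true] at h
  rcases h with h | h | h
  · exact sgP_ne _ _ hs h e1
  · exact sgP_ne _ _ hs h e2
  · exact sgP_ne _ _ hs h e3

/-- The algebraic operations are correct. -/
theorem soundZ {s : ℚ} {r : ℝ} {β : ℂ} (hF : Fam s r β) (hirr : ∀ x : ℚ, x ^ 3 + x ^ 2 + x ≠ s) :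
    SoundA opsZ (starRingEnd ℂ β) (ev s (starRingEnd ℂ β)) (Gq (starRingEnd ℂ β)) := by
  have hS := m_SND m_RF [⌊r⌋] 1 s r β one_pos hF ⟨⌊r⌋, by simp, by
    rw [Int.cast_one, one_mul, abs_le]
    have h1 := Int.floor_le r
    have h2 := Int.lt_floor_add_one r
    constructor <;> linarith⟩
  exact
    { one_lt := hS.one_lt
      zero := hS.zero
      one := hS.one
      sub := hS.sub
      neg := hS.neg
      mul := hS.mul
      isz := hS.isz
      nz := fun u h => nzP_ne hF hirr u h
      inG := hS.inG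
      g0 := hS.g0
      gn := hS.gn
      ga := hS.ga }

end Pool.Agent.Helper62.FM
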