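import Pool.Agent.Helper62.FM.GeoS
import Pool.Agent.Helper56.FM.All

/-!
# Project FM: the kernel from the checks
-/

set_option autoImplicit false

open Set Filter Topology Matrix

noncomputable section

namespace Pool.Agent.Helper62.FM

open Pool.Agent.Helper54.TRI (ht PatC)
open Pool.Agent.Helper56.FM

/-- All references are in the range. -/
def refsOK (X : Cert PQ) : Bool :=
  (X.CS.all fun c => (List.range c.n).all fun a => refOK X.V.length (c.tr a).1 &&
    (refOK X.V.length (c.tr a).2.1 && refOK X.V.length (c.tr a).2.2)) &&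
  (cyc X.seam).all fun e => refOK X.V.length e.1 && refOK X.V.length e.2

/-- The algebraic checks. -/
def alg (X : Cert PQ) : Bool :=
  (shortV X.V && refsOK X) && (chkA opsZ X && (X.chkN opsZ && X.chkC))

variable {s : ℚ} {r : ℝ} {β : ℂ} {c N : ℤ}

theorem n_pos (c : CD) : 0 < c.n := by
  cases c <;> unfold CD.n <;> norm_num

/-- The facts from the geometric check. -/
theorem geo_spec (hF : Fam s r β) (hN : (0 : ℝ) < N) (hy : |(N : ℝ) * r - c| ≤ 1) (X : Cert PQ)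
    (hV : shortV X.V = true) (hR : refsOK X = true) (h : geo X c N = true) :
    Geo opsZ X (ev s (starRingEnd ℂ β)) ∧
    ((∀ a ∈ (cyc X.seam).map (fun a => (X.pt opsZ (ev s (starRingEnd ℂ β)) a.1,
        X.pt opsZ (ev s (starRingEnd ℂ β)) a.2)), a.1 ≠ 0 ∧ a.2 / a.1 ∈ Complex.slitPlane) ∧
      (((cyc X.seam).map (fun a => (X.pt opsZ (ev s (starRingEnd ℂ β)) a.1,
        X.pt opsZ (ev s (starRingEnd ℂ β)) a.2))).map
        (fun a => Complex.arg (a.2 / a.1))).sum = 2 * Real.pi) ∧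
    ∀ a ∈ (cyc X.seam).map (fun a => (X.pt opsZ (ev s (starRingEnd ℂ β)) a.1,
        X.pt opsZ (ev s (starRingEnd ℂ β)) a.2)), a.1 ≠ a.2 := by
  have hN0 : (N : ℝ) ≠ 0 := hN.ne'
  have hk : (0 : ℝ) < (N : ℝ) ^ 17 := by positivity
  have hk9 : (0 : ℝ) < (N : ℝ) ^ 9 := by positivity
  obtain ⟨T, hT⟩ : ∃ T, T = etab X.V c N := ⟨_, rfl⟩
  have htab : ∀ q, refOK X.V.length q = true → PE c N (N ^ 17) (tp T q) (X.vz opsZ q) := by
    intro q hq
    rw [hT]
    exact pe_tab hN0 X hV q hq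
  unfold geo at h
  rw [Bool.and_eq_true, ← hT, List.all_eq_true] at h
  obtain ⟨hC, hS⟩ := h
  unfold refsOK at hR
  rw [Bool.and_eq_true, List.all_eq_true, List.all_eq_true] at hR
  obtain ⟨hRC, hRS⟩ := hR
  have hRC' : ∀ c ∈ X.CS, ∀ a < c.n, refOK X.V.length (c.tr a).1 = true ∧
      refOK X.V.length (c.tr a).2.1 = true ∧ refOK X.V.length (c.tr a).2.2 = true := by
    intro c hc a ha
    have h1 := hRC c hc
    rw [List.all_eq_true] at h1
    have h2 := h1 a (List.mem_range.2 ha)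
    rwa [Bool.and_eq_true, Bool.and_eq_true] at h2
  have hRS' : ∀ e ∈ cyc X.seam, refOK X.V.length e.1 = true ∧ refOK X.V.length e.2 = true := by
    intro e he
    have h2 := hRS e he
    rwa [Bool.and_eq_true] at h2
  refine ⟨⟨?_, ?_⟩, ?_, ?_⟩
  · intro cl hcl
    have h1 := hC cl hcl
    unfold geoC at h1
    rw [Bool.and_eq_true] at h1
    obtain ⟨r1, r2, r3⟩ := hRC' cl hcl 0 (n_pos cl)
    exact gpos_spec hF hN hy hk (htab _ r1) (htab _ r2) (htab _ r3) h1.1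
  · intro cl hcl a ha
    have h1 := hC cl hcl
    unfold geoC at h1
    rw [Bool.and_eq_true, List.all_eq_true] at h1
    have h2 := h1.2 a (List.mem_range.2 ha)
    rw [Bool.or_eq_true, Bool.or_eq_true] at h2
    obtain ⟨r1, r2, r3⟩ := hRC' cl hcl a ha
    rcases h2 with h2 | h2 | h2
    · exact Or.inl (zpos_spec hF hN hy hk hk (htab _ r2) (htab _ r1) h2)
    · exact Or.inr (Or.inl (zpos_spec hF hN hy hk hk (htab _ r3) (htab _ r2) h2))
    · exact Or.inr (Or.inr (zpos_spec hF hN hy hk hk (htab _ r1) (htab _ r3) h2))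
  · unfold geoS at hS
    rw [Bool.and_eq_true, Bool.and_eq_true, List.all_eq_true] at hS
    obtain ⟨-, h1, h2⟩ := hS
    have hd := pe_lev0 (c := c) hN0 ([-3], [2], []) (by simp) (by simp) (by simp)
    refine wi2 X.seam (X.pt opsZ (ev s (starRingEnd ℂ β)))
      (ev s (starRingEnd ℂ β) ([-3], [2], []))
      (fun q => sgE (lev0 N (eR c) (eS c N) (eQ c N) (eC N (eS c N)) ([-3], [2], [])) (tp T q))
      (fun p q => sgE (tp T p) (tp T q)) ?_ ?_ ?_
    · intro e he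
      have h3 := h1 e he
      rw [Bool.and_eq_true, decide_eq_true_eq] at h3
      exact sgE_spec hF hN hy hk9 hk hd (htab _ (hRS' e he).1) h3.1
    · intro e he
      have h3 := h1 e he
      rw [Bool.and_eq_true, Bool.and_eq_true, Bool.or_eq_true, decide_eq_true_eq,
        decide_eq_true_eq, decide_eq_true_eq] at h3
      rcases h3.2.2 with h4 | h4
      · exact Or.inl h4
      · exact Or.inr (sgE_spec hF hN hy hk hk (htab _ (hRS' e he).1) (htab _ (hRS' e he).2) h4)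
    · exact of_decide_eq_true h2
  · unfold geoS at hS
    rw [Bool.and_eq_true, Bool.and_eq_true, List.all_eq_true] at hS
    obtain ⟨-, h1, -⟩ := hS
    intro a ha
    obtain ⟨e, he, rfl⟩ := List.mem_map.1 ha
    have h3 := h1 e he
    rw [Bool.and_eq_true, Bool.and_eq_true] at h3
    exact nzE_spec hF hN hy (htab _ (hRS' e he).1) (htab _ (hRS' e he).2) h3.2.1

/-- The kernel. -/
theorem kernel_of_geo (hF : Fam s r β) (hirr : ∀ x : ℚ, x ^ 3 + x ^ 2 + x ≠ s)
    (hN : (0 : ℝ) < N) (hy : |(N : ℝ) * r - c| ≤ 1) (X : Cert PQ) (hX : alg X = true)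
    (h : geo X c N = true) :
    ∃ K Λ ε R, PatC (starRingEnd ℂ β) (Gq (starRingEnd ℂ β) 0) K Λ ε R := by
  unfold alg at hX
  rw [Bool.and_eq_true, Bool.and_eq_true, Bool.and_eq_true, Bool.and_eq_true] at hX
  obtain ⟨⟨h1, h2⟩, h3, h4, h5⟩ := hX
  obtain ⟨hG, hS, hD⟩ := geo_spec hF hN hy X h1 h2 h
  open Pool.Agent.Helper54.TRI in
  obtain ⟨hpos, nb, hA⟩ := at2 m_GG (m_GP m_KP) (m_GW m_KW) (m_GT (m_KT m_FF)) (m_GE (m_KE m_FF))
    m_NB m_CH pVL pTL (soundZ hF hirr) X h3 h4 h5 hG hS hD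
  choose η hη using fun cc => pETA _ (hpos cc)
  obtain ⟨⟨Λ, ε, R, hP⟩, -⟩ := pATL _ _ _ _ _ _ _ η hA hη
  exact ⟨_, Λ, ε, R, hP⟩

/-- A list of intervals `[(c-1)/N, (c+1)/N]` which covers `[lo, hi]`. -/
def covers : ℚ → List (ℤ × ℤ) → ℚ → Bool
  | lo, [], hi => decide (hi ≤ lo)
  | lo, p :: t, hi => (decide (0 < p.2) && decide (((p.1 - 1 : ℤ) : ℚ) ≤ p.2 * lo)) &&
      covers (((p.1 + 1 : ℤ) : ℚ) / p.2) t hi

theorem covers_spec (L : List (ℤ × ℤ)) (lo hi : ℚ) (h : covers lo L hi = true) (x : ℝ)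
    (h1 : (lo : ℝ) ≤ x) (h2 : x < hi) : ∃ p ∈ L, (0 : ℝ) < (p.2 : ℤ) ∧ |(p.2 : ℝ) * x - p.1| ≤ 1 := by
  induction L generalizing lo with
  | nil =>
    exfalso
    unfold covers at h
    have h3 : ((hi : ℚ) : ℝ) ≤ (lo : ℚ) := by exact_mod_cast of_decide_eq_true h
    linarith
  | cons p t ih =>
    unfold covers at h
    rw [Bool.and_eq_true, Bool.and_eq_true, decide_eq_true_eq, decide_eq_true_eq] at h
    obtain ⟨⟨h3, h4⟩, h5⟩ := h
    have h3' : (0 : ℝ) < ((p.2 : ℤ) : ℝ) := by exact_mod_cast h3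
    by_cases hx : x ≤ ((p.1 + 1 : ℤ) : ℝ) / p.2
    · refine ⟨p, by simp, h3', ?_⟩
      have h4' : (((p.1 - 1 : ℤ) : ℚ) : ℝ) ≤ ((p.2 * lo : ℚ) : ℝ) := by exact_mod_cast h4
      push_cast at h4'
      have h6 : (p.2 : ℝ) * x ≤ ((p.1 + 1 : ℤ) : ℝ) := by
        rw [le_div_iff₀ h3'] at hx
        linarith
      push_cast at h6
      have h7 : (p.2 : ℝ) * lo ≤ p.2 * x := mul_le_mul_of_nonneg_left h1 h3'.le
      rw [abs_le]
      constructor <;> linarith
    · push Not at hx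
      obtain ⟨q, hq, hq'⟩ := ih _ h5 (by push_cast at hx ⊢; exact hx.le)
      exact ⟨q, by simp [hq], hq'⟩

end Pool.Agent.Helper62.FM
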