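import Pool.Agent.Helper62.FM.Data
import Pool.Agent.Helper62.FM.GeoF

/-!
# Project FM: the checks for the family, `7/10 ≤ s ≤ 8/5`
-/

set_option autoImplicit false
set_option maxRecDepth 100000

noncomputable section

namespace Pool.Agent.Helper62.FM

open Pool.Agent.Helper56.FM

theorem short1 : shortV fam1.V = true := by decide +kernel

theorem refs1 : refsOK fam1 = true := by decide +kernel

theorem chkA1 : chkA opsZ fam1 = true := by decide +kernel

theorem chkN1 : fam1.chkN opsZ = true := by decide +kernel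

theorem chkC1 : fam1.chkC = true := by decide +kernel

theorem alg1 : alg fam1 = true := by
  unfold alg
  rw [short1, refs1, chkA1, chkN1, chkC1]
  rfl

/-- The intervals. -/
def pcs1 : List (ℤ × ℤ) := [(70, 160), (56, 125), (58, 125), (48, 100)]

/-- The intervals. -/
def pcs2 : List (ℤ × ℤ) := [(40, 80), (31, 60), (33, 60), (29, 50)]

/-- The intervals. -/
def pcs3 : List (ℤ × ℤ) := [(31, 50), (103, 160), (66, 100), (84, 125)]

/-- The intervals. -/
def pcs4 : List (ℤ × ℤ) := [(218, 320), (172, 250), (70, 100), (114, 160)]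

theorem geo1 : (pcs1.all fun p => geo fam1 p.1 p.2) = true := by decide +kernel

theorem geo2 : (pcs2.all fun p => geo fam1 p.1 p.2) = true := by decide +kernel

theorem geo3 : (pcs3.all fun p => geo fam1 p.1 p.2) = true := by decide +kernel

theorem geo4 : (pcs4.all fun p => geo fam1 p.1 p.2) = true := by decide +kernel

theorem geo_all (p : ℤ × ℤ) (hp : p ∈ pcs1 ++ (pcs2 ++ (pcs3 ++ pcs4))) :
    geo fam1 p.1 p.2 = true := by
  rw [List.mem_append, List.mem_append, List.mem_append] at hp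
  rcases hp with h | h | h | h
  · exact List.all_eq_true.1 geo1 p h
  · exact List.all_eq_true.1 geo2 p h
  · exact List.all_eq_true.1 geo3 p h
  · exact List.all_eq_true.1 geo4 p h

theorem cov1 : covers (2161 / 5000) (pcs1 ++ (pcs2 ++ (pcs3 ++ pcs4))) (1793 / 2500) = true := by
  decide +kernel

/-- **The kernel of the family.** -/
theorem fam_kernel : ∀ (s : ℚ) (r : ℝ) (β : ℂ), Fam s r β → 7 / 10 ≤ s → s ≤ 8 / 5 →
    (∀ x : ℚ, x ^ 3 + x ^ 2 + x ≠ s) →
    ∃ K Λ ε R, Pool.Agent.Helper54.TRI.PatC (starRingEnd ℂ β) (Gq (starRingEnd ℂ β) 0) K Λ ε R := by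
  intro s r β hF h1 h2 hirr
  have hr := hF.real
  have h0 := hF.pos
  have h1' : ((7 / 10 : ℚ) : ℝ) ≤ s := by exact_mod_cast h1
  have h2' : (s : ℝ) ≤ ((8 / 5 : ℚ) : ℝ) := by exact_mod_cast h2
  push_cast at h1' h2'
  have hlo : (((2161 / 5000 : ℚ)) : ℝ) ≤ r := by
    push_cast
    by_contra hcon
    push Not at hcon
    have a1 : r ^ 2 ≤ (2161 / 5000 : ℝ) ^ 2 := pow_le_pow_left₀ h0.le hcon.le 2
    have a2 : r ^ 3 ≤ (2161 / 5000 : ℝ) ^ 3 := pow_le_pow_left₀ h0.le hcon.le 3
    norm_num at a1 a2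
    linarith
  have hhi : r < (((1793 / 2500 : ℚ)) : ℝ) := by
    push_cast
    by_contra hcon
    push Not at hcon
    have a1 : (1793 / 2500 : ℝ) ^ 2 ≤ r ^ 2 := pow_le_pow_left₀ (by norm_num) hcon 2
    have a2 : (1793 / 2500 : ℝ) ^ 3 ≤ r ^ 3 := pow_le_pow_left₀ (by norm_num) hcon 3
    norm_num at a1 a2
    linarith
  obtain ⟨p, hp, hN, hy⟩ := covers_spec _ _ _ cov1 r hlo hhi
  exact kernel_of_geo hF hirr hN hy fam1 alg1 (geo_all p hp)

end Pool.Agent.Helper62.FM
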