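import Pool.Agent.Helper56.FM.Fam

/-!
# Project FM: certificate data for the family `β³ + β² + β = s`
-/

set_option autoImplicit false
set_option maxRecDepth 100000

noncomputable section

namespace Pool.Agent.Helper62.FM

open Pool.Agent.Helper56.FM

/-- Vertex table. -/
def fam1V : List (PQ × ℤ) := [
  (([], [-1363, -946, 684], [-2703, 1681, -109]), 2),
  (([], [-1456, -847, 627], [-2799, 1628, -79]), 4),
  (([], [-1401, -952, 564], [-2894, 1687, -195]), 3),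
  (([], [-363, -946, 684], [-3703, 1681, -109]), 1),
  (([], [-456, -847, 627], [-3799, 1628, -79]), 3),
  (([], [-401, -952, 564], [-3894, 1687, -195]), 4),
  (([-1000, -1000], [-363, -946, 684], [-2703, 1681, -109]), 4),
  (([-1000, -1000], [-456, -847, 627], [-2799, 1628, -79]), 2),
  (([-1000, -1000], [-401, -952, 564], [-2894, 1687, -195]), 1),
  (([-1000], [-363, -946, 684], [-2703, 1681, -109]), 3),
  (([-1000], [-456, -847, 627], [-2799, 1628, -79]), 1),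
  (([-1000], [-401, -952, 564], [-2894, 1687, -195]), 2),
  (([], [1363, 946, -684], [2703, -1681, 109]), 2),
  (([], [1456, 847, -627], [2799, -1628, 79]), 4),
  (([], [1401, 952, -564], [2894, -1687, 195]), 3),
  (([], [363, 946, -684], [3703, -1681, 109]), 1),
  (([], [456, 847, -627], [3799, -1628, 79]), 3),
  (([], [401, 952, -564], [3894, -1687, 195]), 4),
  (([1000, 1000], [363, 946, -684], [2703, -1681, 109]), 4),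
  (([1000, 1000], [456, 847, -627], [2799, -1628, 79]), 2),
  (([1000, 1000], [401, 952, -564], [2894, -1687, 195]), 1),
  (([1000], [363, 946, -684], [2703, -1681, 109]), 3),
  (([1000], [456, 847, -627], [2799, -1628, 79]), 1),
  (([1000], [401, 952, -564], [2894, -1687, 195]), 2),
  (([-1000, -500], [-177, 276, 91], [-343, 766, -77]), 2),
  (([-1000, -500], [-86, -79, 245], [-580, 779, -25]), 1),
  (([-1000, -500], [-129, 22, 222], [-666, 1037, -126]), 1),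
  (([-1000, 500], [-177, 276, 91], [-343, 766, -77]), 1),
  (([-1000, 500], [-86, -79, 245], [-580, 779, -25]), 1),
  (([-1000, 500], [-129, 22, 222], [-666, 1037, -126]), 2),
  (([1000, 500], [-177, 276, 91], [-343, 766, -77]), 1),
  (([1000, 500], [-86, -79, 245], [-580, 779, -25]), 2),
  (([1000, 500], [-129, 22, 222], [-666, 1037, -126]), 1),
  (([1000, 500], [177, -276, -91], [343, -766, 77]), 2),
  (([1000, 500], [86, 79, -245], [580, -779, 25]), 1),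
  (([1000, 500], [129, -22, -222], [666, -1037, 126]), 1),
  (([1000, -500], [177, -276, -91], [343, -766, 77]), 1),
  (([1000, -500], [86, 79, -245], [580, -779, 25]), 1),
  (([1000, -500], [129, -22, -222], [666, -1037, 126]), 2),
  (([-1000, -500], [177, -276, -91], [343, -766, 77]), 1),
  (([-1000, -500], [86, 79, -245], [580, -779, 25]), 2),
  (([-1000, -500], [129, -22, -222], [666, -1037, 126]), 1),
  (([], [-4188, 3537, -1349], [-10684, 12890, -4425]), 4),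
  (([], [-2317, -253, 156], [-7663, 6635, -1850]), 3),
  (([], [-3188, 3537, -1349], [-11684, 12890, -4425]), 3),
  (([], [-1317, -253, 156], [-8663, 6635, -1850]), 4),
  (([], [4188, -3537, 1349], [10684, -12890, 4425]), 4),
  (([], [2317, 253, -156], [7663, -6635, 1850]), 3),
  (([], [3188, -3537, 1349], [11684, -12890, 4425]), 3),
  (([], [1317, 253, -156], [8663, -6635, 1850]), 4),
  (([-1000, -500], [1008, -5149, 2368], [-1523, -4003, 2483]), 1),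
  (([-1000, -500], [182, -3594, 1683], [-3465, -575, 1014]), 2),
  (([1000, -500], [1008, -5149, 2368], [-1523, -4003, 2483]), 2),
  (([1000, -500], [182, -3594, 1683], [-3465, -575, 1014]), 1),
  (([1000, 500], [-1008, 5149, -2368], [1523, 4003, -2483]), 1),
  (([1000, 500], [-182, 3594, -1683], [3465, 575, -1014]), 2),
  (([-1000, 500], [-1008, 5149, -2368], [1523, 4003, -2483]), 2),
  (([-1000, 500], [-182, 3594, -1683], [3465, 575, -1014]), 1)]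

/-- Clusters. -/
def fam1CS : List CD := [
  .T ((0, 3), (1, 3), (2, 3)) ((3, 3), (4, 3), (5, 3)) ((6, 3), (7, 3), (8, 3)) ((9, 3), (10, 3), (11, 3)),
  .T ((12, 3), (13, 3), (14, 3)) ((15, 3), (16, 3), (17, 3)) ((18, 3), (19, 3), (20, 3)) ((21, 3), (22, 3), (23, 3)),
  .E ((24, 3), (25, 3), (26, 3)) ((30, 3), (31, 3), (32, 3)) ((27, 3), (28, 3), (29, 3)),
  .E ((33, 3), (34, 3), (35, 3)) ((39, 3), (40, 3), (41, 3)) ((36, 3), (37, 3), (38, 3)),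
  .W (-1) ((1, 3), (0, 3), (10, 4)) ((7, 3), (6, 3), (4, 4)),
  .W (-1) ((1, 3), (10, 4), (9, 4)) ((7, 3), (4, 4), (3, 4)),
  .W (-1) ((13, 3), (12, 3), (22, 4)) ((19, 3), (18, 3), (16, 4)),
  .W (-1) ((13, 3), (22, 4), (21, 4)) ((19, 3), (16, 4), (15, 4)),
  .W 1 ((2, 3), (1, 3), (42, 3)) ((5, 3), (4, 3), (44, 3)),
  .W 1 ((2, 2), (42, 2), (43, 2)) ((5, 2), (44, 2), (45, 2)),
  .W 1 ((14, 3), (13, 3), (46, 3)) ((17, 3), (16, 3), (48, 3)),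
  .W 1 ((14, 3), (46, 3), (47, 3)) ((17, 3), (48, 3), (49, 3)),
  .W 1 ((43, 2), (42, 2), (9, 3)) ((45, 2), (44, 2), (0, 3)),
  .W 1 ((43, 2), (9, 3), (11, 3)) ((45, 2), (0, 3), (2, 3)),
  .W 1 ((47, 3), (46, 3), (21, 4)) ((49, 3), (48, 3), (12, 4)),
  .W 1 ((47, 2), (21, 3), (23, 3)) ((49, 2), (12, 3), (14, 3)),
  .W (-1) ((3, 3), (5, 3), (20, 3)) ((6, 3), (8, 3), (17, 3)),
  .W 1 ((5, 3), (18, 3), (20, 3)) ((8, 3), (15, 3), (17, 3)),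
  .W (-1) ((8, 3), (7, 3), (24, 3)) ((11, 3), (10, 3), (27, 3)),
  .W (-1) ((8, 3), (24, 3), (26, 3)) ((11, 3), (27, 3), (29, 3)),
  .W (-1) ((20, 3), (19, 3), (33, 3)) ((23, 3), (22, 3), (36, 3)),
  .W (-1) ((20, 3), (33, 3), (35, 3)) ((23, 3), (36, 3), (38, 3)),
  .W (-1) ((25, 3), (24, 3), (39, 3)) ((31, 3), (30, 3), (33, 3)),
  .W 1 ((24, 3), (40, 3), (39, 3)) ((30, 3), (34, 3), (33, 3)),
  .W 1 ((29, 3), (28, 3), (51, 3)) ((32, 3), (31, 3), (53, 3)),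
  .W (-1) ((28, 3), (50, 3), (51, 3)) ((31, 3), (52, 3), (53, 3)),
  .W 1 ((38, 3), (37, 3), (55, 3)) ((41, 3), (40, 3), (57, 3)),
  .W (-1) ((37, 3), (54, 3), (55, 3)) ((40, 3), (56, 3), (57, 3)),
  .W 1 ((51, 3), (50, 3), (56, 3)) ((53, 3), (52, 3), (54, 3)),
  .W (-1) ((50, 3), (57, 3), (56, 3)) ((52, 3), (55, 3), (54, 3)),
  .P ((26, 3), (25, 3), (8, 3)),
  .P ((25, 3), (15, 3), (8, 3)),
  .P ((25, 3), (39, 3), (15, 3)),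
  .P ((39, 3), (57, 3), (15, 3)),
  .P ((39, 3), (41, 3), (57, 3)),
  .P ((57, 3), (50, 3), (15, 3)),
  .P ((50, 3), (28, 3), (15, 3)),
  .P ((28, 3), (49, 0), (15, 3)),
  .P ((28, 3), (17, 0), (49, 0)),
  .P ((28, 3), (6, 0), (17, 0)),
  .P ((28, 3), (27, 3), (6, 0)),
  .P ((27, 3), (10, 3), (6, 0)),
  .P ((10, 4), (0, 3), (6, 1)),
  .P ((0, 3), (44, 2), (6, 1)),
  .P ((44, 3), (4, 3), (6, 2)),
  .P ((49, 1), (14, 2), (15, 4)),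
  .P ((14, 2), (47, 2), (15, 4)),
  .P ((47, 2), (52, 3), (15, 4)),
  .P ((47, 2), (55, 3), (52, 3)),
  .P ((47, 2), (23, 3), (55, 3)),
  .P ((23, 3), (38, 3), (55, 3)),
  .P ((52, 3), (19, 3), (15, 4)),
  .P ((52, 3), (31, 3), (19, 3)),
  .P ((31, 3), (33, 3), (19, 3)),
  .P ((30, 3), (54, 3), (34, 3)),
  .P ((30, 3), (53, 3), (54, 3)),
  .P ((30, 3), (32, 3), (53, 3)),
  .P ((54, 3), (45, 0), (34, 3)),
  .P ((54, 3), (37, 3), (45, 0)),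
  .P ((37, 3), (5, 0), (45, 0)),
  .P ((37, 3), (18, 0), (5, 0)),
  .P ((37, 3), (36, 3), (18, 0)),
  .P ((36, 3), (22, 3), (18, 0)),
  .P ((22, 4), (12, 3), (18, 1)),
  .P ((12, 4), (48, 3), (18, 2)),
  .P ((48, 3), (16, 3), (18, 2)),
  .P ((45, 0), (2, 1), (34, 3)),
  .P ((2, 1), (3, 3), (34, 3)),
  .P ((2, 2), (43, 2), (3, 4)),
  .P ((43, 2), (56, 3), (3, 4)),
  .P ((43, 2), (51, 3), (56, 3)),
  .P ((43, 2), (11, 3), (51, 3)),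
  .P ((11, 3), (29, 3), (51, 3)),
  .P ((56, 3), (7, 3), (3, 4)),
  .P ((56, 3), (40, 3), (7, 3)),
  .P ((40, 3), (24, 3), (7, 3)),
  .P ((3, 3), (20, 3), (34, 3)),
  .P ((20, 3), (35, 3), (34, 3)),
  .P ((1, 3), (9, 4), (42, 3)),
  .P ((13, 3), (21, 4), (46, 3))]

/-- Neighbours. -/
def fam1NB : List (List (List (ℕ × ℕ × ℕ × ℤ))) := [
  [[(4, 0, 0, 0), (8, 0, 0, 0), (13, 1, 1, 0)], [(5, 1, 1, (-1)), (8, 1, 0, 0), (16, 0, 0, 0)], [(4, 1, 0, 0), (18, 0, 0, 0), (16, 1, 0, 0)], [(5, 0, 1, (-1)), (18, 1, 0, 0), (13, 0, 1, 0)]],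
  [[(6, 0, 0, 0), (10, 0, 0, 0), (15, 1, 1, 0)], [(7, 1, 1, (-1)), (10, 1, 0, 0), (17, 1, 1, 0)], [(6, 1, 0, 0), (20, 0, 0, 0), (17, 0, 1, 0)], [(7, 0, 1, (-1)), (20, 1, 0, 0), (15, 0, 1, 0)]],
  [[(22, 0, 0, 0), (30, 0, 0, 0), (19, 0, 1, 0)], [(22, 1, 0, 0), (24, 1, 0, 0), (56, 0, 0, 0)], [(40, 0, 0, 0), (24, 0, 0, 0), (19, 1, 1, 0)]],
  [[(23, 1, 1, 0), (77, 0, 1, 0), (21, 0, 1, 0)], [(23, 0, 1, 0), (26, 1, 0, 0), (34, 0, 0, 0)], [(61, 0, 0, 0), (26, 0, 0, 0), (21, 1, 1, 0)]],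
  [[(0, 0, 0, 0), (42, 0, 0, 0), (5, 0, 0, 0)], [(0, 2, 0, 0), (44, 0, 1, 1), (5, 1, 0, 0)]],
  [[(4, 0, 2, 0), (0, 3, 0, 1), (78, 0, 0, 0)], [(4, 1, 2, 0), (0, 1, 0, 1), (73, 0, 1, 0)]],
  [[(1, 0, 0, 0), (63, 0, 0, 0), (7, 0, 0, 0)], [(1, 2, 0, 0), (65, 0, 1, 1), (7, 1, 0, 0)]],
  [[(6, 0, 2, 0), (1, 3, 0, 1), (79, 0, 0, 0)], [(6, 1, 2, 0), (1, 1, 0, 1), (51, 0, 1, 0)]],
  [[(0, 0, 1, 0), (78, 0, 2, 0), (9, 0, 0, 1)], [(0, 1, 1, 0), (44, 0, 0, 0), (9, 1, 0, 1)]],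
  [[(8, 0, 2, (-1)), (12, 0, 0, 0), (68, 0, 0, 0)], [(8, 1, 2, (-1)), (12, 1, 0, 0), (59, 0, 1, 2)]],
  [[(1, 0, 1, 0), (79, 0, 2, 0), (11, 0, 0, 0)], [(1, 1, 1, 0), (65, 0, 0, 0), (11, 1, 0, 0)]],
  [[(10, 0, 2, 0), (14, 0, 0, 0), (46, 0, 0, 1)], [(10, 1, 2, 0), (14, 1, 0, 0), (38, 0, 1, 3)]],
  [[(9, 0, 1, 0), (78, 0, 1, (-1)), (13, 0, 0, 0)], [(9, 1, 1, 0), (43, 0, 0, 0), (13, 1, 0, 0)]],
  [[(12, 0, 2, 0), (0, 3, 2, 0), (71, 0, 0, 0)], [(12, 1, 2, 0), (0, 0, 2, 0), (66, 0, 0, 2)]],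
  [[(11, 0, 1, 0), (79, 0, 1, 0), (15, 0, 0, 1)], [(11, 1, 1, 0), (64, 0, 0, 0), (15, 1, 0, 1)]],
  [[(14, 0, 2, (-1)), (1, 3, 2, 0), (49, 0, 0, 0)], [(14, 1, 2, (-1)), (1, 0, 2, 0), (45, 0, 0, 1)]],
  [[(0, 1, 2, 0), (17, 0, 2, 0), (76, 0, 0, 0)], [(0, 2, 2, 0), (17, 1, 2, 0), (39, 0, 1, 3)]],
  [[(60, 0, 1, 3), (1, 2, 2, 0), (16, 0, 1, 0)], [(31, 0, 1, 0), (1, 1, 2, 0), (16, 1, 1, 0)]],
  [[(0, 2, 1, 0), (75, 0, 1, 0), (19, 0, 0, 0)], [(0, 3, 1, 0), (41, 0, 0, 0), (19, 1, 0, 0)]],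
  [[(18, 0, 2, 0), (2, 0, 2, 0), (30, 0, 2, 0)], [(18, 1, 2, 0), (2, 2, 2, 0), (72, 0, 0, 0)]],
  [[(1, 2, 1, 0), (53, 0, 1, 0), (21, 0, 0, 0)], [(1, 3, 1, 0), (62, 0, 0, 0), (21, 1, 0, 0)]],
  [[(20, 0, 2, 0), (3, 0, 2, 0), (77, 0, 0, 0)], [(20, 1, 2, 0), (3, 2, 2, 0), (50, 0, 0, 0)]],
  [[(2, 0, 0, 0), (23, 0, 2, 0), (32, 0, 0, 0)], [(2, 1, 0, 0), (23, 1, 2, 0), (53, 0, 0, 0)]],
  [[(75, 0, 0, 0), (3, 1, 0, 0), (22, 0, 1, 0)], [(54, 0, 2, 0), (3, 0, 0, 0), (22, 1, 1, 0)]],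
  [[(2, 2, 1, 0), (25, 0, 2, 0), (72, 0, 1, 0)], [(2, 1, 1, 0), (25, 1, 2, 0), (56, 0, 1, 0)]],
  [[(36, 0, 0, 0), (28, 0, 0, 0), (24, 0, 1, 0)], [(52, 0, 0, 0), (28, 1, 0, 0), (24, 1, 1, 0)]],
  [[(3, 2, 1, 0), (27, 0, 2, 0), (50, 0, 1, 0)], [(3, 1, 1, 0), (27, 1, 2, 0), (34, 0, 1, 0)]],
  [[(58, 0, 0, 0), (29, 1, 1, 0), (26, 0, 1, 0)], [(74, 0, 0, 0), (29, 0, 1, 0), (26, 1, 1, 0)]],
  [[(25, 0, 1, 0), (29, 0, 2, 0), (70, 0, 1, 0)], [(25, 1, 1, 0), (29, 1, 2, 0), (55, 0, 1, 0)]],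
  [[(35, 0, 0, 0), (27, 1, 1, 0), (28, 0, 1, 0)], [(48, 0, 1, 0), (27, 0, 1, 0), (28, 1, 1, 0)]],
  [[(2, 0, 1, 0), (31, 0, 2, 0), (19, 0, 2, 0)]],
  [[(32, 0, 2, 0), (17, 1, 0, 0), (30, 0, 1, 0)]],
  [[(22, 0, 2, 0), (33, 0, 2, 0), (31, 0, 0, 0)]],
  [[(34, 0, 2, 0), (35, 0, 2, 0), (32, 0, 1, 0)]],
  [[(3, 1, 2, 0), (26, 1, 2, 0), (33, 0, 0, 0)]],
  [[(29, 0, 0, 0), (36, 0, 2, 0), (33, 0, 1, 0)]],
  [[(25, 0, 0, 0), (37, 0, 2, 0), (35, 0, 1, 0)]],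
  [[(38, 0, 2, 0), (45, 0, 2, (-1)), (36, 0, 1, 0)]],
  [[(39, 0, 2, 0), (11, 1, 2, (-3)), (37, 0, 0, 0)]],
  [[(40, 0, 2, 0), (16, 1, 2, (-3)), (38, 0, 0, 0)]],
  [[(2, 2, 0, 0), (41, 0, 2, 0), (39, 0, 0, 0)]],
  [[(18, 1, 1, 0), (42, 0, 2, (-1)), (40, 0, 1, 0)]],
  [[(4, 0, 1, 0), (43, 0, 2, 0), (41, 0, 1, 1)]],
  [[(12, 1, 1, 0), (44, 0, 2, (-1)), (42, 0, 1, 0)]],
  [[(8, 1, 1, 0), (4, 1, 1, (-1)), (43, 0, 1, 1)]],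
  [[(15, 1, 2, (-1)), (46, 0, 2, 0), (37, 0, 1, 1)]],
  [[(11, 0, 2, (-1)), (47, 0, 2, 0), (45, 0, 1, 0)]],
  [[(48, 0, 2, 0), (51, 0, 2, 0), (46, 0, 1, 0)]],
  [[(49, 0, 2, 0), (29, 1, 0, 0), (47, 0, 0, 0)]],
  [[(15, 0, 2, 0), (50, 0, 2, 0), (48, 0, 0, 0)]],
  [[(21, 1, 2, 0), (26, 0, 2, 0), (49, 0, 1, 0)]],
  [[(52, 0, 2, 0), (7, 1, 2, 0), (47, 0, 1, 0)]],
  [[(25, 1, 0, 0), (53, 0, 2, 0), (51, 0, 0, 0)]],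
  [[(22, 1, 2, 0), (20, 0, 1, 0), (52, 0, 1, 0)]],
  [[(55, 0, 2, 0), (57, 0, 2, 0), (23, 1, 0, 0)]],
  [[(56, 0, 2, 0), (28, 1, 2, 0), (54, 0, 0, 0)]],
  [[(2, 1, 2, 0), (24, 1, 2, 0), (55, 0, 0, 0)]],
  [[(58, 0, 2, 0), (66, 0, 2, 0), (54, 0, 1, 0)]],
  [[(27, 0, 0, 0), (59, 0, 2, 0), (57, 0, 0, 0)]],
  [[(60, 0, 2, 0), (9, 1, 2, (-2)), (58, 0, 1, 0)]],
  [[(61, 0, 2, 0), (17, 0, 0, (-3)), (59, 0, 0, 0)]],
  [[(3, 2, 0, 0), (62, 0, 2, 0), (60, 0, 0, 0)]],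
  [[(20, 1, 1, 0), (63, 0, 2, (-1)), (61, 0, 1, 0)]],
  [[(6, 0, 1, 0), (64, 0, 2, (-1)), (62, 0, 1, 1)]],
  [[(14, 1, 1, 0), (65, 0, 2, 0), (63, 0, 1, 1)]],
  [[(10, 1, 1, 0), (6, 1, 1, (-1)), (64, 0, 1, 0)]],
  [[(13, 1, 2, (-2)), (67, 0, 2, 0), (57, 0, 1, 0)]],
  [[(68, 0, 2, (-1)), (76, 0, 2, 0), (66, 0, 1, 0)]],
  [[(9, 0, 2, 0), (69, 0, 2, 0), (67, 0, 0, 1)]],
  [[(70, 0, 2, 0), (73, 0, 2, 0), (68, 0, 1, 0)]],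
  [[(71, 0, 2, 0), (28, 0, 2, 0), (69, 0, 0, 0)]],
  [[(13, 0, 2, 0), (72, 0, 2, 0), (70, 0, 0, 0)]],
  [[(19, 1, 2, 0), (24, 0, 2, 0), (71, 0, 1, 0)]],
  [[(74, 0, 2, 0), (5, 1, 2, 0), (69, 0, 1, 0)]],
  [[(27, 1, 0, 0), (75, 0, 2, 0), (73, 0, 0, 0)]],
  [[(23, 0, 0, 0), (18, 0, 1, 0), (74, 0, 1, 0)]],
  [[(16, 0, 2, 0), (77, 0, 2, 0), (67, 0, 1, 0)]],
  [[(21, 0, 2, 0), (3, 0, 1, 0), (76, 0, 1, 0)]],
  [[(5, 0, 2, 0), (12, 0, 1, 1), (8, 0, 1, 0)]],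
  [[(7, 0, 2, 0), (14, 0, 1, 0), (10, 0, 1, 0)]]]

/-- Seam. -/
def fam1Seam : List Rf := [(4, 3), (3, 3), (2, 1), (45, 0), (5, 0), (18, 0), (22, 3), (21, 3), (47, 2), (14, 2), (49, 1), (17, 1), (6, 1), (44, 2), (5, 2), (18, 2), (16, 3), (15, 3), (49, 0), (17, 0), (6, 0), (10, 3), (9, 3), (42, 2), (2, 2), (45, 1), (5, 1), (18, 1), (12, 3), (49, 2), (17, 2), (6, 2)]

/-- The certificate. -/
def fam1 : Cert PQ where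
  V := fam1V
  CS := fam1CS
  NB := fam1NB
  seam := fam1Seam

end Pool.Agent.Helper62.FM
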