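import Pool.Agent.Helper56.FM.Fam

/-!
# Project FM: packed integer polynomials and the geometric check (definitions)

A polynomial `P` with integer coefficients is represented by the pair `(P(B), K)`, `K` a bound of
`∑ |P_j| 32^j`. If `K < B/2` the coefficients can be recovered from `P(B)`.
-/

set_option autoImplicit false

namespace Pool.Agent.Helper62.FM

open Pool.Agent.Helper56.FM

/-- The base `2^400`. -/
def BB : ℤ := 2582249878086908589655919172003011874329705792829223512830659356540647622016841194629645353280137831435903171972747493376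

/-- `BB / 2`. -/
def HH : ℤ := 1291124939043454294827959586001505937164852896414611756415329678270323811008420597314822676640068915717951585986373746688

/-- `BB / 2`, as a natural number. -/
def KK : ℕ := 1291124939043454294827959586001505937164852896414611756415329678270323811008420597314822676640068915717951585986373746688

/-- Packed polynomials. -/
abbrev E2 : Type := ℤ × ℕ

def econ (n : ℤ) : E2 := (n, n.natAbs)
def eadd (x y : E2) : E2 := (x.1 + y.1, x.2 + y.2)
def esub (x y : E2) : E2 := (x.1 - y.1, x.2 + y.2)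
def eneg (x : E2) : E2 := (-x.1, x.2)
def emul (x y : E2) : E2 := (x.1 * y.1, x.2 * y.2)
def esc (n : ℤ) (x : E2) : E2 := (n * x.1, n.natAbs * x.2)

/-- The lowest coefficient. -/
def dg (Z : ℤ) : ℤ := (Z + HH) % BB - HH

/-- The other coefficients. -/
def nx (Z : ℤ) : ℤ := (Z + HH) / BB

/-- Sum of the absolute values of the `n` lowest coefficients. -/
def dsum : ℕ → ℤ → ℕ
  | 0, _ => 0
  | n + 1, Z => (dg Z).natAbs + dsum n (nx Z)

/-- Positivity on `[-1, 1]` (sufficient test). -/
def posE (x : E2) : Bool :=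
  decide (x.2 < KK) && decide (((34359738368 * dsum 6 (nx x.1) + x.2 : ℕ) : ℤ) < 34359738368 * dg x.1)

/-- `N r`. -/
def eR (c : ℤ) : E2 := (c + BB, c.natAbs + 32)

/-- `N³ s`. -/
def eS (c N : ℤ) : E2 :=
  eadd (emul (emul (eR c) (eR c)) (eR c)) (eadd (esc N (emul (eR c) (eR c))) (esc (N * N) (eR c)))

/-- `N² (r² + r + 1)`. -/
def eQ (c N : ℤ) : E2 := eadd (emul (eR c) (eR c)) (eadd (esc N (eR c)) (econ (N * N)))

/-- `N² (1 + r)`. -/
def eR1 (c N : ℤ) : E2 := esc N (eadd (eR c) (econ N))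

/-- Linear combination. -/
def edot : Po → List E2 → E2
  | a :: P, x :: C => eadd (esc a x) (edot P C)
  | _, _ => (0, 0)

/-- The powers `N⁶ s^j`. -/
def eC (N : ℤ) (S : E2) : List E2 := [econ (N ^ 6), esc (N ^ 3) S, emul S S]

/-- Level `0` position. -/
def lev0 (N : ℤ) (R S Q : E2) (C : List E2) (h : PQ) : E2 × E2 :=
  (esub (emul (edot h.2.2 C) S) (esc N (emul Q (edot h.2.1 C))),
   esub (esc (N ^ 3) (edot h.1 C)) (esc (N ^ 2) (emul R (edot h.2.1 C))))

/-- Multiplication by `N² β`. -/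
def estep (N : ℤ) (Q R1 : E2) (p : E2 × E2) : E2 × E2 :=
  (eneg (emul Q p.2), esub (esc (N ^ 2) p.1) (emul R1 p.2))

def ppsc (n : ℤ) (p : E2 × E2) : E2 × E2 := (esc n p.1, esc n p.2)

def psu (p q : E2 × E2) : E2 × E2 := (esub p.1 q.1, esub p.2 q.2)

def edet (u v : E2 × E2) : E2 := esub (emul u.1 v.2) (emul u.2 v.1)

/-- The five levels. -/
def levs (N : ℤ) (Q R1 : E2) (p0 : E2 × E2) : List (E2 × E2) :=
  let p1 := estep N Q R1 p0
  let p2 := estep N Q R1 p1
  let p3 := estep N Q R1 p2
  let p4 := estep N Q R1 p3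
  [ppsc (N ^ 8) p0, ppsc (N ^ 6) p1, ppsc (N ^ 4) p2, ppsc (N ^ 2) p3, p4]

/-- The table of all positions. -/
def etab (V : List (PQ × ℤ)) (c N : ℤ) : List (List (E2 × E2)) :=
  V.map fun v => levs N (eQ c N) (eR1 c N)
    (lev0 N (eR c) (eS c N) (eQ c N) (eC N (eS c N)) v.1)

/-- Position. -/
def tp (T : List (List (E2 × E2))) (r : Rf) : E2 × E2 := (T.getD r.1 []).getD r.2 ((0, 0), (0, 0))

def gpos (p q r : E2 × E2) : Bool := posE (edet (psu r p) (psu q p))

def zpos (p q : E2 × E2) : Bool := posE (edet q p)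

/-- Geometric check of a cluster. -/
def geoC (T : List (List (E2 × E2))) (c : CD) : Bool :=
  gpos (tp T (c.tr 0).1) (tp T (c.tr 0).2.1) (tp T (c.tr 0).2.2) &&
  (List.range c.n).all fun a =>
    zpos (tp T (c.tr a).2.1) (tp T (c.tr a).1) ||
      (zpos (tp T (c.tr a).2.2) (tp T (c.tr a).2.1) || zpos (tp T (c.tr a).1) (tp T (c.tr a).2.2))

def sgE (u v : E2 × E2) : ℤ := if zpos u v then 1 else if zpos v u then -1 else 0

/-- Nonzero test. -/
def nzE (u : E2 × E2) : Bool := posE u.1 || (posE (eneg u.1) || (posE u.2 || posE (eneg u.2)))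

/-- Crossing number of an edge. -/
def crE (d p q : E2 × E2) : ℤ :=
  if sgE d p = 1 ∧ sgE d q = -1 ∧ sgE p q = 1 then 1 else
    if sgE d p = -1 ∧ sgE d q = 1 ∧ sgE p q = -1 then -1 else 0

/-- Check of the seam with the direction `d`. -/
def geoS (d : E2 × E2) (T : List (List (E2 × E2))) (seam : List Rf) : Bool :=
  decide (seam ≠ []) && ((cyc seam).all (fun e => decide (sgE d (tp T e.1) ≠ 0) &&
      (nzE (psu (tp T e.1) (tp T e.2)) &&
        (decide (sgE d (tp T e.1) = sgE d (tp T e.2)) || decide (sgE (tp T e.1) (tp T e.2) ≠ 0)))) &&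
    decide (((cyc seam).map (fun e => crE d (tp T e.1) (tp T e.2))).sum = 1))

/-- The geometric check on `|N r - c| ≤ 1`, direction `-3 β + 2 (β² + β)`. -/
def geo (X : Cert PQ) (c N : ℤ) : Bool :=
  let T := etab X.V c N
  (X.CS.all fun cl => geoC T cl) &&
    geoS (lev0 N (eR c) (eS c N) (eQ c N) (eC N (eS c N)) ([-3], [2], [])) T X.seam

end Pool.Agent.Helper62.FM
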