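import Pool.Agent.Helper62.FM.Enc

/-!
# Project FM: packed integer polynomials, soundness
-/

set_option autoImplicit false

namespace Pool.Agent.Helper62.FM

open Pool.Agent.Helper56.FM

theorem BB_HH : BB = 2 * HH := by unfold BB HH; norm_num
theorem HH_KK : HH = (KK : ℤ) := by unfold HH KK; norm_num
theorem HH_pos : 0 < HH := by unfold HH; norm_num

/-- Weighted norm of the coefficients. -/
def nrm : Po → ℕ
  | [] => 0
  | c :: t => c.natAbs + 32 * nrm t

theorem nrm_padd (a b : Po) : nrm (padd a b) ≤ nrm a + nrm b := by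
  induction a generalizing b with
  | nil => simp [padd, nrm]
  | cons c a ih =>
    cases b with
    | nil => simp [padd, nrm]
    | cons d b =>
      simp only [padd, nrm]
      have h1 := ih b
      have h2 := Int.natAbs_add_le c d
      omega

theorem nrm_psc (c : ℤ) (a : Po) : nrm (psc c a) = c.natAbs * nrm a := by
  induction a with
  | nil => simp [psc, nrm]
  | cons d a ih =>
    have h : psc c (d :: a) = (c * d) :: psc c a := rfl
    rw [h]
    simp only [nrm, ih, Int.natAbs_mul]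
    ring

theorem nrm_pneg (a : Po) : nrm (pneg a) = nrm a := by
  induction a with
  | nil => simp [pneg, nrm]
  | cons d a ih =>
    have h : pneg (d :: a) = (-d) :: pneg a := rfl
    rw [h]
    simp only [nrm, ih, Int.natAbs_neg]

theorem nrm_pmul (a b : Po) : nrm (pmul a b) ≤ nrm a * nrm b := by
  induction a with
  | nil => simp [pmul, nrm]
  | cons c a ih =>
    simp only [pmul]
    have h1 := nrm_padd (psc c b) (0 :: pmul a b)
    have h2 : nrm (0 :: pmul a b) = 32 * nrm (pmul a b) := by simp [nrm]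
    rw [h2, nrm_psc] at h1
    simp only [nrm]
    have h3 : (c.natAbs + 32 * nrm a) * nrm b = c.natAbs * nrm b + 32 * (nrm a * nrm b) := by ring
    rw [h3]
    omega

/-- The packed pair `x` represents the function `f`. -/
def Enc (x : E2) (f : ℝ → ℝ) : Prop :=
  ∃ P : Po, pev P BB = x.1 ∧ nrm P ≤ x.2 ∧ ∀ y : ℝ, pev P y = f y

theorem Enc.con (n : ℤ) : Enc (econ n) (fun _ => (n : ℝ)) :=
  ⟨[n], by simp [econ], by simp [econ, nrm], fun y => by simp⟩

theorem Enc.add {x y : E2} {f g : ℝ → ℝ} (hx : Enc x f) (hy : Enc y g) :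
    Enc (eadd x y) (fun t => f t + g t) := by
  obtain ⟨P, h1, h2, h3⟩ := hx
  obtain ⟨Q, k1, k2, k3⟩ := hy
  refine ⟨padd P Q, ?_, ?_, ?_⟩
  · rw [pev_padd, h1, k1]
    rfl
  · have := nrm_padd P Q
    show _ ≤ x.2 + y.2
    omega
  · intro t
    rw [pev_padd, h3, k3]

theorem Enc.neg {x : E2} {f : ℝ → ℝ} (hx : Enc x f) : Enc (eneg x) (fun t => - f t) := by
  obtain ⟨P, h1, h2, h3⟩ := hx
  refine ⟨pneg P, ?_, ?_, ?_⟩
  · rw [pev_pneg, h1]
    rfl
  · rw [nrm_pneg]
    exact h2
  · intro t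
    rw [pev_pneg, h3]

theorem Enc.sub {x y : E2} {f g : ℝ → ℝ} (hx : Enc x f) (hy : Enc y g) :
    Enc (esub x y) (fun t => f t - g t) := by
  have h := hx.add hy.neg
  have e1 : eadd x (eneg y) = esub x y := by
    unfold eadd eneg esub
    rw [← sub_eq_add_neg]
  have e2 : (fun t => f t + -g t) = (fun t => f t - g t) := by
    funext t
    ring
  rw [e1, e2] at h
  exact h

theorem Enc.mul {x y : E2} {f g : ℝ → ℝ} (hx : Enc x f) (hy : Enc y g) :
    Enc (emul x y) (fun t => f t * g t) := by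
  obtain ⟨P, h1, h2, h3⟩ := hx
  obtain ⟨Q, k1, k2, k3⟩ := hy
  refine ⟨pmul P Q, ?_, ?_, ?_⟩
  · rw [pev_pmul, h1, k1]
    rfl
  · exact (nrm_pmul P Q).trans (Nat.mul_le_mul h2 k2)
  · intro t
    rw [pev_pmul, h3, k3]

theorem Enc.sc {x : E2} {f : ℝ → ℝ} (n : ℤ) (hx : Enc x f) : Enc (esc n x) (fun t => n * f t) :=
  (Enc.con n).mul hx

theorem Enc.R (c : ℤ) : Enc (eR c) (fun t => c + t) :=
  ⟨[c, 1], by simp [eR], by simp [eR, nrm], fun y => by simp⟩

theorem Enc.zero : Enc (0, 0) (fun _ => 0) := ⟨[], by simp, by simp [nrm], fun y => by simp⟩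

theorem Enc.congr {x : E2} {f g : ℝ → ℝ} (hx : Enc x f) (h : ∀ t, f t = g t) : Enc x g := by
  have : f = g := funext h
  rwa [← this]

/-- Recovering a coefficient. -/
theorem dg_nx (c : ℤ) (Z : ℤ) (h : c.natAbs < KK) : dg (c + BB * Z) = c ∧ nx (c + BB * Z) = Z := by
  have hB := BB_HH
  have hK := HH_KK
  have h1 : -HH < c ∧ c < HH := by
    rw [hK]
    omega
  have e : c + BB * Z + HH = (c + HH) + BB * Z := by ring
  have h2 : 0 ≤ c + HH := by linarith [h1.1]
  have h3 : c + HH < BB := by linarith [h1.2]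
  have h4 : (0 : ℤ) < BB := by linarith [HH_pos]
  constructor
  · unfold dg
    rw [e, Int.add_mul_emod_self_left, Int.emod_eq_of_lt h2 h3]
    ring
  · unfold nx
    rw [e, Int.add_mul_ediv_left _ _ h4.ne', Int.ediv_eq_zero_of_lt h2 h3]
    ring

theorem dsum_spec (n : ℕ) (t : Po) (h : nrm t < KK) (y : ℝ) (hy : |y| ≤ 1) :
    (32 : ℝ) ^ n * |pev t y| ≤ 32 ^ n * (dsum n (pev t BB) : ℝ) + nrm t := by
  induction n generalizing t with
  | zero =>
    simp only [pow_zero, one_mul, dsum, Nat.cast_zero, zero_add]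
    clear h
    induction t with
    | nil => simp [nrm]
    | cons c t ih =>
      rw [pev_cons]
      simp only [nrm]
      push_cast
      have h2 : |(c : ℝ) + y * pev t y| ≤ |(c : ℝ)| + |y * pev t y| := abs_add_le _ _
      have h3 : |y * pev t y| ≤ |pev t y| := by
        rw [abs_mul]
        exact mul_le_of_le_one_left (abs_nonneg _) hy
      have h4 : ((c.natAbs : ℕ) : ℝ) = |(c : ℝ)| := by
        rw [Nat.cast_natAbs, Int.cast_abs]
      have h5 : (0 : ℝ) ≤ (nrm t : ℝ) := Nat.cast_nonneg _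
      rw [h4]
      linarith
  | succ n ih =>
    cases t with
    | nil => 
      rw [pev_nil, abs_zero, mul_zero]
      positivity
    | cons c t =>
      have hn : nrm (c :: t) = c.natAbs + 32 * nrm t := rfl
      have hc : c.natAbs < KK := by omega
      have ht : nrm t < KK := by omega
      have e1 : pev (c :: t) BB = c + BB * pev t BB := by
        rw [pev_cons]
        simp
      obtain ⟨d1, d2⟩ := dg_nx c (pev t BB) hc
      have e2 : dsum (n + 1) (pev (c :: t) BB) = c.natAbs + dsum n (pev t BB) := by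
        rw [e1]
        show (dg _).natAbs + dsum n (nx _) = _
        rw [d1, d2]
      rw [e2, pev_cons, hn]
      push_cast
      have h0 := ih t ht
      have h2 : |(c : ℝ) + y * pev t y| ≤ |(c : ℝ)| + |y * pev t y| := abs_add_le _ _
      have h3 : |y * pev t y| ≤ |pev t y| := by
        rw [abs_mul]
        exact mul_le_of_le_one_left (abs_nonneg _) hy
      have h4 : ((c.natAbs : ℕ) : ℝ) = |(c : ℝ)| := by
        rw [Nat.cast_natAbs, Int.cast_abs]
      rw [h4]
      have h5 : (0 : ℝ) < 32 ^ n := by positivity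
      have h6 : |(c : ℝ) + y * pev t y| ≤ |(c : ℝ)| + |pev t y| := h2.trans (by linarith)
      have h7 : (32 : ℝ) ^ (n + 1) * |(c : ℝ) + y * pev t y| ≤
          32 ^ (n + 1) * (|(c : ℝ)| + |pev t y|) :=
        mul_le_mul_of_nonneg_left h6 (by positivity)
      have h8 : (32 : ℝ) ^ (n + 1) = 32 * 32 ^ n := by ring
      rw [h8] at h7 ⊢
      have h9 : (0 : ℝ) ≤ |(c : ℝ)| := abs_nonneg _
      nlinarith only [h7, h0, h9, h5]

theorem posE_spec {x : E2} {f : ℝ → ℝ} (hx : Enc x f) (h : posE x = true) (y : ℝ) (hy : |y| ≤ 1) :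
    0 < f y := by
  obtain ⟨P, h1, h2, h3⟩ := hx
  unfold posE at h
  rw [Bool.and_eq_true, decide_eq_true_eq, decide_eq_true_eq] at h
  obtain ⟨k1, k2⟩ := h
  rw [← h3]
  cases P with
  | nil =>
    exfalso
    have e0 : x.1 = 0 := by rw [← h1]; rfl
    have d0 := (dg_nx 0 0 (by unfold KK; norm_num)).1
    rw [mul_zero, add_zero] at d0
    rw [e0, d0] at k2
    have : (0 : ℤ) ≤ ((34359738368 * dsum 6 (nx 0) + x.2 : ℕ) : ℤ) := Int.natCast_nonneg _
    omega
  | cons c t =>
    have hn : nrm (c :: t) = c.natAbs + 32 * nrm t := rfl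
    rw [hn] at h2
    have hc : c.natAbs < KK := by omega
    have ht : nrm t < KK := by omega
    have e1 : pev (c :: t) BB = c + BB * pev t BB := by
      rw [pev_cons]
      simp
    obtain ⟨d1, d2⟩ := dg_nx c (pev t BB) hc
    rw [← h1, e1, d1, d2] at k2
    have k3 : ((34359738368 * dsum 6 (pev t BB) + x.2 : ℕ) : ℝ) < 34359738368 * (c : ℝ) := by
      exact_mod_cast k2
    push_cast at k3
    have k4 := dsum_spec 6 t ht y hy
    have k5 : (32 : ℝ) * (nrm t : ℝ) ≤ (x.2 : ℝ) := by
      have : 32 * nrm t ≤ x.2 := by omega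
      exact_mod_cast this
    rw [pev_cons]
    have h3 : |y * pev t y| ≤ |pev t y| := by
      rw [abs_mul]
      exact mul_le_of_le_one_left (abs_nonneg _) hy
    have h4 := neg_abs_le (y * pev t y)
    norm_num at k4
    linarith

end Pool.Agent.Helper62.FM
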