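import Pool.Agent.Helper62.FM.Check
import Pool.Agent.Helper56.FM.Fin

/-!
# Project FM: the theorem for the family `A³ + A² + A = s`, `7/10 ≤ s ≤ 8/5`
-/

set_option autoImplicit false

open Set Filter Topology Matrix
open Pool.Agent.Helper54.Wav

noncomputable section

namespace Pool.Agent.Helper62.FM

open Pool.Agent.Helper54.TRI (m_LAT)
open Pool.Agent.Helper56.FM

/-- The wavelet from the kernel. -/
theorem wavelet_fam {s : ℚ} {r : ℝ} {β : ℂ} (hF : Fam s r β) (h1 : 7 / 10 ≤ s) (h2 : s ≤ 8 / 5)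
    (hirr : ∀ x : ℚ, x ^ 3 + x ^ 2 + x ≠ s) {A : Matrix (Fin 2) (Fin 2) ℝ}
    (htr : A.trace = 2 * β.re) (hdet : A.det = Complex.normSq β)
    (hex : ∃ p q : Fin 2 → ℤ, q ≠ 0 ∧ zv p = Aᵀ *ᵥ zv q) :
    Pool.Agent.Helper54.WavS.HasSchwartzWavelet A := by
  obtain ⟨K, Λ, ε, R, hP⟩ := fam_kernel s r β hF h1 h2 hirr
  refine wavelet_of_kernel (m_LQ m_LAT) Pool.Agent.Helper56.TW.g_Red (soundZ hF hirr).one_lt ?_ hP
    ?_ ?_ hex
  · rw [Complex.conj_im]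
    exact neg_ne_zero.2 hF.im.ne'
  · rw [Complex.conj_re]
    exact htr
  · rw [Complex.normSq_conj]
    exact hdet

/-- The theorem for one `s`. -/
theorem fin_fam2 {s : ℚ} (h1 : 7 / 10 ≤ s) (h2 : s ≤ 8 / 5)
    (hirr : ∀ x : ℚ, x ^ 3 + x ^ 2 + x ≠ s) :
    (∀ A : Matrix (Fin 2) (Fin 2) ℝ, _root_.Wav.Expansive A →
      A ^ 3 + A ^ 2 + A = (s : ℝ) • (1 : Matrix (Fin 2) (Fin 2) ℝ) →
      ¬ Pool.Agent.Helper54.WavS.HasRationalPower A ∧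
      ((∃ N : ℝ, 2 < N ∧ WavN.HasWavelet N A) ↔ ∃ j : ℤ, j ≠ 0 ∧ j ∈ WavN.Exps A) ∧
      ((∃ j : ℤ, j ≠ 0 ∧ j ∈ WavN.Exps A) →
        (1 : ℤ) ∈ WavN.Exps A ∧ Pool.Agent.Helper54.WavS.HasSchwartzWavelet A)) ∧
    ∃ t : ℝ, t ^ 3 + t ^ 2 + t = s ∧
      _root_.Wav.Expansive (!![-(1 + t), -(t ^ 2 + t + 1); 1, 0] : Matrix (Fin 2) (Fin 2) ℝ) ∧
      (!![-(1 + t), -(t ^ 2 + t + 1); 1, 0] : Matrix (Fin 2) (Fin 2) ℝ) ^ 3 +
        !![-(1 + t), -(t ^ 2 + t + 1); 1, 0] ^ 2 + !![-(1 + t), -(t ^ 2 + t + 1); 1, 0] =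
        (s : ℝ) • (1 : Matrix (Fin 2) (Fin 2) ℝ) ∧
      ¬ Pool.Agent.Helper54.WavS.HasRationalPower
        (!![-(1 + t), -(t ^ 2 + t + 1); 1, 0] : Matrix (Fin 2) (Fin 2) ℝ) ∧
      Pool.Agent.Helper54.WavS.HasSchwartzWavelet
        (!![-(1 + t), -(t ^ 2 + t + 1); 1, 0] : Matrix (Fin 2) (Fin 2) ℝ) := by
  have hs : 0 < s := lt_of_lt_of_le (by norm_num) h1
  obtain ⟨r, β, hF⟩ := m_RF.2.1 s hs
  have hJ : ∀ A : Matrix (Fin 2) (Fin 2) ℝ, _root_.Wav.Expansive A →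
      A ^ 3 + A ^ 2 + A = (s : ℝ) • (1 : Matrix (Fin 2) (Fin 2) ℝ) →
      (∃ j : ℤ, j ≠ 0 ∧ j ∈ WavN.Exps A) →
        (1 : ℤ) ∈ WavN.Exps A ∧ Pool.Agent.Helper54.WavS.HasSchwartzWavelet A := by
    intro A hE h3 hj
    rcases trdet_or hF h3 with ⟨htr, hdet⟩ | hsc
    · have hcub : ∃ a b c : ℚ, β ^ 3 = (a : ℂ) * β ^ 2 + (b : ℂ) * β + (c : ℂ) := by
        refine ⟨-1, -1, s, ?_⟩
        push_cast
        linear_combination hF.cub
      obtain ⟨p, q, hq, hpq⟩ := m_JJ β hF.im.ne' hcub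
        (fun n hn u => (m_NR m_RF s r β hF hirr n hn u).1) A htr hdet hj
      exact ⟨one_mem_exps (_root_.Wav.expansive_det hE) hq hpq,
        wavelet_fam hF h1 h2 hirr htr hdet ⟨p, q, hq, hpq⟩⟩
    · obtain ⟨j, hj0, hj1⟩ := hj
      rw [hsc] at hj1
      exact absurd hj1 (scalar_exps hF hirr j hj0)
  have hmain : ∀ A : Matrix (Fin 2) (Fin 2) ℝ, _root_.Wav.Expansive A →
      A ^ 3 + A ^ 2 + A = (s : ℝ) • (1 : Matrix (Fin 2) (Fin 2) ℝ) →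
      ¬ Pool.Agent.Helper54.WavS.HasRationalPower A ∧
      ((∃ N : ℝ, 2 < N ∧ WavN.HasWavelet N A) ↔ ∃ j : ℤ, j ≠ 0 ∧ j ∈ WavN.Exps A) ∧
      ((∃ j : ℤ, j ≠ 0 ∧ j ∈ WavN.Exps A) →
        (1 : ℤ) ∈ WavN.Exps A ∧ Pool.Agent.Helper54.WavS.HasSchwartzWavelet A) := by
    intro A hE h3
    have hnr : ¬ Pool.Agent.Helper54.WavS.HasRationalPower A := by
      rcases trdet_or hF h3 with ⟨htr, hdet⟩ | hsc
      · exact m_NP m_RF (m_NR m_RF) s r β hF hirr A hdet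
      · rw [hsc]
        exact scalar_nrp hF hirr
    refine ⟨hnr, ⟨?_, ?_⟩, hJ A hE h3⟩
    · rintro ⟨N, hN, hW⟩
      by_contra hcon
      have hcl := WavN.exps_closure (le_refl 2) hE hN hW
      have h0 : AddSubgroup.closure (WavN.Exps A) ≤ ⊥ := by
        rw [AddSubgroup.closure_le]
        intro j hj
        by_contra hj0
        exact hcon ⟨j, fun h => hj0 (by simp [h]), hj⟩
      rw [hcl] at h0
      have h1 : (1 : ℤ) ∈ (⊥ : AddSubgroup ℤ) := h0 (AddSubgroup.mem_top 1)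
      rw [AddSubgroup.mem_bot] at h1
      exact one_ne_zero h1
    · intro hj
      exact ⟨3, by norm_num, (hJ A hE h3 hj).2.hasWavelet _⟩
  refine ⟨hmain, ?_⟩
  obtain ⟨hE, h3, p, q, hq, hpq⟩ := m_EX m_RF s r β hF
  have h1' := one_mem_exps (_root_.Wav.expansive_det hE) hq hpq
  exact ⟨r, hF.real, hE, h3, (hmain _ hE h3).1, (hJ _ hE h3 ⟨1, one_ne_zero, h1'⟩).2⟩

/-- The denominator of `x³ + x² + x` is a cube. -/
theorem den_cube (x : ℚ) : (x ^ 3 + x ^ 2 + x).den = x.den ^ 3 := by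
  have hq : (x.den : ℤ) ≠ 0 := by exact_mod_cast x.den_nz
  have hcop : IsCoprime x.num (x.den : ℤ) := by
    rw [Int.isCoprime_iff_nat_coprime]
    simpa using x.reduced
  have h1 : IsCoprime (x.num ^ 2 + x.num * x.den + (x.den : ℤ) ^ 2) (x.den : ℤ) := by
    have h2 : IsCoprime (x.num ^ 2) (x.den : ℤ) := hcop.pow_left
    have e : x.num ^ 2 + x.num * x.den + (x.den : ℤ) ^ 2 =
        x.num ^ 2 + (x.den : ℤ) * (x.num + x.den) := by ring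
    rw [e]
    exact (IsCoprime.add_mul_left_left_iff).2 h2
  have h3 : IsCoprime (x.num * (x.num ^ 2 + x.num * x.den + (x.den : ℤ) ^ 2)) ((x.den : ℤ) ^ 3) :=
    (IsCoprime.mul_left hcop h1).pow_right
  have h4 : x ^ 3 + x ^ 2 + x = ((x.num * (x.num ^ 2 + x.num * x.den + (x.den : ℤ) ^ 2) : ℤ) : ℚ) /
      (((x.den : ℤ) ^ 3 : ℤ) : ℚ) := by
    have hx : x = (x.num : ℚ) / ((x.den : ℤ) : ℚ) := by
      rw [Int.cast_natCast]
      exact (Rat.num_div_den x).symm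
    have hq' : ((x.den : ℤ) : ℚ) ≠ 0 := by exact_mod_cast hq
    rw [eq_div_iff (by push_cast; positivity)]
    rw [← sub_eq_zero]
    have h5 : (x.num : ℚ) = x * ((x.den : ℤ) : ℚ) := by
      rw [eq_comm, ← eq_div_iff hq']
      exact hx
    push_cast at h5 ⊢
    rw [h5]
    ring
  have h6 := Rat.den_div_eq_of_coprime (a := x.num * (x.num ^ 2 + x.num * x.den + (x.den : ℤ) ^ 2))
    (b := (x.den : ℤ) ^ 3) (by positivity) (Int.isCoprime_iff_nat_coprime.1 h3)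
  rw [← h4] at h6
  exact_mod_cast h6

theorem irr_of_den {s : ℚ} (h : ¬ ∃ m : ℕ, s.den = m ^ 3) (x : ℚ) : x ^ 3 + x ^ 2 + x ≠ s := by
  intro hx
  exact h ⟨x.den, by rw [← hx]; exact den_cube x⟩

theorem irr_one (x : ℚ) : x ^ 3 + x ^ 2 + x ≠ 1 := by
  intro hx
  have h1 := den_cube x
  rw [hx] at h1
  have h2 : x.den = 1 := by
    have h3 : x.den ^ 3 = 1 := by rw [← h1]; rfl
    exact (Nat.pow_eq_one.1 h3).resolve_right (by norm_num)
  have h3 : x = (x.num : ℚ) := by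
    conv_lhs => rw [← Rat.num_div_den x, h2]
    simp
  rw [h3] at hx
  have h4 : x.num * (x.num ^ 2 + x.num + 1) = 1 := by
    have : x.num ^ 3 + x.num ^ 2 + x.num = 1 := by exact_mod_cast hx
    linear_combination this
  rcases Int.eq_one_or_neg_one_of_mul_eq_one h4 with h | h <;> rw [h] at h4 <;> norm_num at h4

end Pool.Agent.Helper62.FM
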