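import Pool.Agent.Helper56.FM.St

/-!
# Project FM: the winding number of a closed polygon, from signs with respect to a direction
-/

set_option autoImplicit false

open Set Filter Topology

noncomputable section

namespace Pool.Agent.Helper62.FM

open Pool.Agent.Helper56.FM

private theorem argpos2 {z : ℂ} (h : 0 < z.im) : 0 < Complex.arg z ∧ Complex.arg z < Real.pi := by
  have h1 : 0 ≤ Complex.arg z := Complex.arg_nonneg_iff.2 h.le
  have h2 : Complex.arg z ≠ 0 := by
    intro h0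
    have := (Complex.arg_eq_zero_iff.1 h0).2
    exact h.ne' this
  have h3 : Complex.arg z ≠ Real.pi := by
    intro h0
    have := (Complex.arg_eq_pi_iff.1 h0).2
    exact h.ne' this
  exact ⟨lt_of_le_of_ne h1 h2.symm, lt_of_le_of_ne (Complex.arg_le_pi z) h3⟩

private theorem argneg2 {z : ℂ} (h : z.im < 0) : -Real.pi < Complex.arg z ∧ Complex.arg z < 0 :=
  ⟨Complex.neg_pi_lt_arg z, Complex.arg_neg_iff.2 h⟩

private theorem int2 {k : ℤ} {x : ℝ} (n : ℤ) (hk : x = 2 * Real.pi * k)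
    (h1 : 2 * Real.pi * (n - 1 : ℤ) < x) (h2 : x < 2 * Real.pi * (n + 1 : ℤ)) : k = n := by
  have hpi : (0 : ℝ) < 2 * Real.pi := by positivity
  rw [hk] at h1 h2
  have h3 : ((n - 1 : ℤ) : ℝ) < (k : ℝ) := lt_of_mul_lt_mul_left h1 hpi.le
  have h4 : (k : ℝ) < ((n + 1 : ℤ) : ℝ) := lt_of_mul_lt_mul_left h2 hpi.le
  have h5 : n - 1 < k := by exact_mod_cast h3
  have h6 : k < n + 1 := by exact_mod_cast h4
  omega

/-- Crossing number from sign data. -/
def crS (a b d : ℤ) : ℤ :=
  if a = 1 ∧ b = -1 ∧ d = 1 then 1 else if a = -1 ∧ b = 1 ∧ d = -1 then -1 else 0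

/-- One edge. -/
private theorem edge2 (p q : ℂ) (a b d : ℤ)
    (ha : (a = 1 ∧ 0 < p.im) ∨ (a = -1 ∧ p.im < 0)) (hb : (b = 1 ∧ 0 < q.im) ∨ (b = -1 ∧ q.im < 0))
    (hd : a = b ∨ (d = 1 ∧ 0 < (q / p).im) ∨ (d = -1 ∧ (q / p).im < 0)) :
    q / p ∈ Complex.slitPlane ∧
    Complex.arg (q / p) = Complex.arg q - Complex.arg p + 2 * Real.pi * (crS a b d : ℝ) := by
  have hp0 : p ≠ 0 := by rintro rfl; rcases ha with ⟨-, h⟩ | ⟨-, h⟩ <;> simp at h
  have hq0 : q ≠ 0 := by rintro rfl; rcases hb with ⟨-, h⟩ | ⟨-, h⟩ <;> simp at h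
  have hqp : q / p ≠ 0 := div_ne_zero hq0 hp0
  have hang : ((Complex.arg (q / p) : ℝ) : Real.Angle) =
      ((Complex.arg q - Complex.arg p : ℝ) : Real.Angle) := by
    rw [Complex.arg_div_coe_angle hq0 hp0, Real.Angle.coe_sub]
  obtain ⟨k, hk⟩ := Real.Angle.angle_eq_iff_two_pi_dvd_sub.1 hang
  have hpi := Real.pi_pos
  have hr1 := Complex.neg_pi_lt_arg (q / p)
  have hr2 := Complex.arg_le_pi (q / p)
  have key : k = crS a b d ∧ Complex.arg (q / p) ≠ Real.pi := by
    unfold crS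
    rcases ha with ⟨rfl, ha⟩ | ⟨rfl, ha⟩ <;> rcases hb with ⟨rfl, hb⟩ | ⟨rfl, hb⟩
    · -- both positive
      have A := argpos2 ha
      have B := argpos2 hb
      have hk0 : k = 0 := by
        refine int2 0 hk ?_ ?_ <;> push_cast <;> linarith [A.1, A.2, B.1, B.2]
      rw [if_neg (by rintro ⟨-, h, -⟩; norm_num at h), if_neg (by rintro ⟨h, -⟩; norm_num at h)]
      refine ⟨hk0, ?_⟩
      rw [hk0] at hk
      push_cast at hk
      intro h
      linarith [A.1, A.2, B.1, B.2]
    · have A := argpos2 ha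
      have B := argneg2 hb
      rcases hd with h | ⟨rfl, hd⟩ | ⟨rfl, hd⟩
      · norm_num at h
      · have C := argpos2 hd
        rw [if_pos ⟨rfl, rfl, rfl⟩]
        refine ⟨?_, C.2.ne⟩
        refine int2 1 hk ?_ ?_ <;> push_cast <;> linarith [A.1, A.2, B.1, B.2, C.1, C.2]
      · have C := argneg2 hd
        rw [if_neg (by rintro ⟨-, -, h⟩; norm_num at h), if_neg (by rintro ⟨h, -⟩; norm_num at h)]
        refine ⟨?_, (C.2.trans hpi).ne⟩
        refine int2 0 hk ?_ ?_ <;> push_cast <;> linarith [A.1, A.2, B.1, B.2, C.1, C.2]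
    · have A := argneg2 ha
      have B := argpos2 hb
      rcases hd with h | ⟨rfl, hd⟩ | ⟨rfl, hd⟩
      · norm_num at h
      · have C := argpos2 hd
        rw [if_neg (by rintro ⟨h, -⟩; norm_num at h), if_neg (by rintro ⟨-, -, h⟩; norm_num at h)]
        refine ⟨?_, C.2.ne⟩
        refine int2 0 hk ?_ ?_ <;> push_cast <;> linarith [A.1, A.2, B.1, B.2, C.1, C.2]
      · have C := argneg2 hd
        rw [if_neg (by rintro ⟨h, -⟩; norm_num at h), if_pos ⟨rfl, rfl, rfl⟩]
        refine ⟨?_, (C.2.trans hpi).ne⟩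
        refine int2 (-1) hk ?_ ?_ <;> push_cast <;> linarith [A.1, A.2, B.1, B.2, C.1, C.2]
    · have A := argneg2 ha
      have B := argneg2 hb
      have hk0 : k = 0 := by
        refine int2 0 hk ?_ ?_ <;> push_cast <;> linarith [A.1, A.2, B.1, B.2]
      rw [if_neg (by rintro ⟨h, -⟩; norm_num at h), if_neg (by rintro ⟨-, h, -⟩; norm_num at h)]
      refine ⟨hk0, ?_⟩
      rw [hk0] at hk
      push_cast at hk
      intro h
      linarith [A.1, A.2, B.1, B.2]
  refine ⟨Complex.mem_slitPlane_iff_arg.2 ⟨key.2, hqp⟩, ?_⟩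
  rw [← key.1]
  linarith

private theorem zip2 {β : Type} (f : β → ℝ) : ∀ (L M : List β), L.length = M.length →
    ((L.zip M).map (fun e => f e.2 - f e.1)).sum = (M.map f).sum - (L.map f).sum
  | [], [], _ => by simp
  | [], b :: M, h => by simp at h
  | a :: L, [], h => by simp at h
  | a :: L, b :: M, h => by
    have ih := zip2 f L M (by simpa using h)
    simp only [List.zip_cons_cons, List.map_cons, List.sum_cons, ih]
    ring

private theorem cyc2 {β : Type} (f : β → ℝ) (L : List β) :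
    ((cyc L).map (fun e => f e.2 - f e.1)).sum = 0 := by
  unfold cyc
  cases L with
  | nil => simp
  | cons a L =>
    rw [zip2]
    · simp only [List.tail_cons, List.take_succ_cons, List.take_zero, List.map_append,
        List.sum_append, List.map_cons, List.map_nil, List.sum_cons, List.sum_nil]
      ring
    · simp

/-- The second components of the cyclic edge list are first components. -/
theorem mem_cyc2 {β : Type} (L : List β) (e : β × β) (he : e ∈ cyc L) :
    ∃ e' ∈ cyc L, e'.1 = e.2 := by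
  have h2 : e.2 ∈ L := by
    unfold cyc at he
    have := (List.of_mem_zip (a := e.1) (b := e.2) he).2
    rcases List.mem_append.1 this with h | h
    · exact List.mem_of_mem_tail h
    · exact List.mem_of_mem_take h
  have hf : (cyc L).map Prod.fst = L := by
    unfold cyc
    apply List.map_fst_zip
    cases L with
    | nil => simp
    | cons a L => simp
  rw [← hf] at h2
  obtain ⟨e', h', h''⟩ := List.mem_map.1 h2
  exact ⟨e', h', h''⟩

/-- **WI2**. -/
theorem wi2 {ρ : Type} (seam : List ρ) (f : ρ → ℂ) (u : ℂ) (g : ρ → ℤ) (d : ρ → ρ → ℤ)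
    (hg : ∀ e ∈ cyc seam, (g e.1 = 1 ∧ 0 < (f e.1 / u).im) ∨ (g e.1 = -1 ∧ (f e.1 / u).im < 0))
    (hd : ∀ e ∈ cyc seam, g e.1 = g e.2 ∨ (d e.1 e.2 = 1 ∧ 0 < (f e.2 / f e.1).im) ∨
      (d e.1 e.2 = -1 ∧ (f e.2 / f e.1).im < 0))
    (hs : ((cyc seam).map (fun e => crS (g e.1) (g e.2) (d e.1 e.2))).sum = 1) :
    (∀ a ∈ (cyc seam).map (fun a => (f a.1, f a.2)), a.1 ≠ 0 ∧ a.2 / a.1 ∈ Complex.slitPlane) ∧
    (((cyc seam).map (fun a => (f a.1, f a.2))).map (fun a => Complex.arg (a.2 / a.1))).sum =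
      2 * Real.pi := by
  have hg2 : ∀ e ∈ cyc seam, (g e.2 = 1 ∧ 0 < (f e.2 / u).im) ∨ (g e.2 = -1 ∧ (f e.2 / u).im < 0) := by
    intro e he
    obtain ⟨e', h', h''⟩ := mem_cyc2 seam e he
    rw [← h'']
    exact hg e' h'
  have hu : ∀ e ∈ cyc seam, u ≠ 0 ∧ f e.1 ≠ 0 := by
    intro e he
    refine ⟨?_, ?_⟩
    · rintro rfl
      rcases hg e he with ⟨-, h⟩ | ⟨-, h⟩ <;> simp at h
    · intro h0
      rcases hg e he with ⟨-, h⟩ | ⟨-, h⟩ <;> rw [h0] at h <;> simp at h
  have key : ∀ e ∈ cyc seam, f e.2 / f e.1 ∈ Complex.slitPlane ∧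
      Complex.arg (f e.2 / f e.1) = Complex.arg (f e.2 / u) - Complex.arg (f e.1 / u) +
        2 * Real.pi * (crS (g e.1) (g e.2) (d e.1 e.2) : ℝ) := by
    intro e he
    have h := edge2 (f e.1 / u) (f e.2 / u) (g e.1) (g e.2) (d e.1 e.2) (hg e he) (hg2 e he)
    have hq : f e.2 / u / (f e.1 / u) = f e.2 / f e.1 := by
      have := (hu e he).1
      have := (hu e he).2
      field_simp
    rw [hq] at h
    exact h (hd e he)
  refine ⟨?_, ?_⟩
  · intro a ha
    obtain ⟨e, he, rfl⟩ := List.mem_map.1 ha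
    exact ⟨(hu e he).2, (key e he).1⟩
  · rw [List.map_map]
    have hcongr : (cyc seam).map ((fun a : ℂ × ℂ => Complex.arg (a.2 / a.1)) ∘
        (fun a : ρ × ρ => (f a.1, f a.2))) =
        (cyc seam).map (fun a => (Complex.arg (f a.2 / u) - Complex.arg (f a.1 / u)) +
          2 * Real.pi * ((crS (g a.1) (g a.2) (d a.1 a.2) : ℤ) : ℝ)) := by
      apply List.map_congr_left
      intro a h
      simp only [Function.comp]
      exact (key a h).2
    rw [hcongr, List.sum_map_add, cyc2 (fun r => Complex.arg (f r / u)), zero_add,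
      List.sum_map_mul_left]
    have hcast : ((cyc seam).map (fun a => ((crS (g a.1) (g a.2) (d a.1 a.2) : ℤ) : ℝ))).sum
        = ((((cyc seam).map (fun a => crS (g a.1) (g a.2) (d a.1 a.2))).sum : ℤ) : ℝ) := by
      rw [Int.cast_list_sum, List.map_map]
      rfl
    rw [hcast, hs]
    simp

end Pool.Agent.Helper62.FM
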