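import Pool.Agent.Helper62.FM.Alg
import Pool.Agent.Helper62.FM.EncS
import Pool.Agent.Helper62.FM.WI2

/-!
# Project FM: soundness of the geometric check
-/

set_option autoImplicit false

open Set Filter Topology Matrix

noncomputable section

namespace Pool.Agent.Helper62.FM

open Pool.Agent.Helper54.TRI (ht)
open Pool.Agent.Helper56.FM

/-- The real root as a function of the local variable. -/
def rr (c N : ℤ) (y : ℝ) : ℝ := ((c : ℝ) + y) / N

/-- `s`. -/
def ss (c N : ℤ) (y : ℝ) : ℝ := rr c N y ^ 3 + rr c N y ^ 2 + rr c N y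

/-- `p` represents `k` times the coordinates of `h`. -/
def PE (c N : ℤ) (k : ℝ) (p : E2 × E2) (h : PQ) : Prop :=
  Enc p.1 (fun y => k * cX (rr c N y) (ss c N y) h) ∧
  Enc p.2 (fun y => k * cY (rr c N y) (ss c N y) h)

variable {c N : ℤ}

theorem enc_R (hN : (N : ℝ) ≠ 0) : Enc (eR c) (fun y => N * rr c N y) :=
  (Enc.R c).congr (fun t => by unfold rr; field_simp)

theorem enc_S (hN : (N : ℝ) ≠ 0) : Enc (eS c N) (fun y => N ^ 3 * ss c N y) := by
  have hR := enc_R (c := c) hN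
  refine ((hR.mul hR).mul hR |>.add (((hR.mul hR).sc N).add (hR.sc (N * N)))).congr (fun t => ?_)
  unfold ss
  push_cast
  ring

theorem enc_Q (hN : (N : ℝ) ≠ 0) :
    Enc (eQ c N) (fun y => N ^ 2 * (rr c N y ^ 2 + rr c N y + 1)) := by
  have hR := enc_R (c := c) hN
  refine ((hR.mul hR).add ((hR.sc N).add (Enc.con (N * N)))).congr (fun t => ?_)
  push_cast
  ring

theorem enc_R1 (hN : (N : ℝ) ≠ 0) : Enc (eR1 c N) (fun y => N ^ 2 * (1 + rr c N y)) := by
  have hR := enc_R (c := c) hN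
  refine ((hR.add (Enc.con N)).sc N).congr (fun t => ?_)
  ring

theorem enc_dot (hN : (N : ℝ) ≠ 0) (P : Po) (hP : P.length ≤ 3) :
    Enc (edot P (eC N (eS c N))) (fun y => N ^ 6 * pev P (ss c N y)) := by
  have hS := enc_S (c := c) hN
  have h0 : Enc (econ (N ^ 6)) (fun _ => ((N ^ 6 : ℤ) : ℝ)) := Enc.con _
  have h1 := hS.sc (N ^ 3)
  have h2 := hS.mul hS
  unfold eC
  rcases P with _ | ⟨a, P⟩
  · exact Enc.zero.congr (fun t => by simp)
  rcases P with _ | ⟨b, P⟩
  · refine ((h0.sc a).add Enc.zero).congr (fun t => ?_)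
    simp
    ring
  rcases P with _ | ⟨d, P⟩
  · refine ((h0.sc a).add ((h1.sc b).add Enc.zero)).congr (fun t => ?_)
    simp
    ring
  rcases P with _ | ⟨e, P⟩
  · refine ((h0.sc a).add ((h1.sc b).add ((h2.sc d).add Enc.zero))).congr (fun t => ?_)
    simp
    ring
  · exfalso
    simp only [List.length_cons] at hP
    omega

theorem pe_lev0 (hN : (N : ℝ) ≠ 0) (h : PQ) (h1 : h.1.length ≤ 3) (h2 : h.2.1.length ≤ 3)
    (h3 : h.2.2.length ≤ 3) :
    PE c N (N ^ 9) (lev0 N (eR c) (eS c N) (eQ c N) (eC N (eS c N)) h) h := by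
  have a1 := enc_dot (c := c) hN h.1 h1
  have a2 := enc_dot (c := c) hN h.2.1 h2
  have a3 := enc_dot (c := c) hN h.2.2 h3
  constructor
  · refine ((a3.mul (enc_S hN)).sub (((enc_Q hN).mul a2).sc N)).congr (fun t => ?_)
    unfold cX
    ring
  · refine ((a1.sc (N ^ 3)).sub (((enc_R hN).mul a2).sc (N ^ 2))).congr (fun t => ?_)
    unfold cY
    push_cast
    ring

theorem pe_step (hN : (N : ℝ) ≠ 0) {k : ℝ} {p : E2 × E2} {h : PQ} (hp : PE c N k p h) :
    PE c N (k * N ^ 2) (estep N (eQ c N) (eR1 c N) p) (pB h) := by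
  constructor
  · refine (((enc_Q hN).mul hp.2).neg).congr (fun t => ?_)
    unfold cX cY pB
    simp only
    unfold ss
    ring
  · refine ((hp.1.sc (N ^ 2)).sub ((enc_R1 hN).mul hp.2)).congr (fun t => ?_)
    unfold cX cY pB
    simp only [pev_psub, pev_padd, pev_cons]
    unfold ss
    push_cast
    ring

theorem pe_sc {k : ℝ} {p : E2 × E2} {h : PQ} (n : ℤ) (hp : PE c N k p h) :
    PE c N (n * k) (ppsc n p) h :=
  ⟨(hp.1.sc n).congr (fun t => by ring), (hp.2.sc n).congr (fun t => by ring)⟩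

/-- The vertex table has short polynomials. -/
def shortV (V : List (PQ × ℤ)) : Bool :=
  V.all fun v => decide (v.1.1.length ≤ 3) && (decide (v.1.2.1.length ≤ 3) &&
    decide (v.1.2.2.length ≤ 3))

/-- All references are in the range. -/
def refOK (n : ℕ) (r : Rf) : Bool := decide (r.1 < n) && decide (r.2 < 5)

theorem PE.cast {k k' : ℝ} {p : E2 × E2} {h : PQ} (hp : PE c N k p h) (e : k = k') :
    PE c N k' p h := e ▸ hp

theorem pe_levs (hN : (N : ℝ) ≠ 0) {p : E2 × E2} {h : PQ} (hp : PE c N (N ^ 9) p h) (k : ℕ)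
    (hk : k < 5) :
    PE c N (N ^ 17) ((levs N (eQ c N) (eR1 c N) p).getD k ((0, 0), (0, 0))) (pBn k h) := by
  have h1 := pe_step hN hp
  have h2 := pe_step hN h1
  have h3 := pe_step hN h2
  have h4 := pe_step hN h3
  unfold levs
  interval_cases k
  · exact (pe_sc (N ^ 8) hp).cast (by push_cast; ring)
  · exact (pe_sc (N ^ 6) h1).cast (by push_cast; ring)
  · exact (pe_sc (N ^ 4) h2).cast (by push_cast; ring)
  · exact (pe_sc (N ^ 2) h3).cast (by push_cast; ring)
  · exact h4.cast (by ring)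

theorem pe_tab (hN : (N : ℝ) ≠ 0) (X : Cert PQ) (hV : shortV X.V = true) (r : Rf)
    (hr : refOK X.V.length r = true) :
    PE c N (N ^ 17) (tp (etab X.V c N) r) (X.vz opsZ r) := by
  unfold refOK at hr
  rw [Bool.and_eq_true, decide_eq_true_eq, decide_eq_true_eq] at hr
  obtain ⟨h1, h2⟩ := hr
  have hmem : X.V[r.1] ∈ X.V := List.getElem_mem h1
  unfold shortV at hV
  rw [List.all_eq_true] at hV
  have h3 := hV _ hmem
  rw [Bool.and_eq_true, Bool.and_eq_true, decide_eq_true_eq, decide_eq_true_eq,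
    decide_eq_true_eq] at h3
  have h4 := pe_levs hN (pe_lev0 (c := c) hN X.V[r.1].1 h3.1 h3.2.1 h3.2.2) r.2 h2
  have e1 : (etab X.V c N).getD r.1 [] = levs N (eQ c N) (eR1 c N)
      (lev0 N (eR c) (eS c N) (eQ c N) (eC N (eS c N)) X.V[r.1].1) := by
    unfold etab
    rw [List.getD_eq_getElem _ _ (by rw [List.length_map]; exact h1), List.getElem_map]
  have e2 : X.V.getD r.1 (opsZ.zero, 0) = X.V[r.1] := List.getD_eq_getElem _ _ h1
  unfold tp Cert.vz
  rw [e1, e2]
  exact h4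

/-- The orientation from the coordinates. -/
theorem ht_XY (β p q r : ℂ) (xp yp xq yq xr yr : ℝ) (hβ : β.im < 0)
    (hp : p = (xp : ℂ) + (yp : ℂ) * β) (hq : q = (xq : ℂ) + (yq : ℂ) * β)
    (hr : r = (xr : ℂ) + (yr : ℂ) * β)
    (h : 0 < (xr - xp) * (yq - yp) - (yr - yp) * (xq - xp)) : 0 < ht p q r := by
  have h1 : r - p = ((xr - xp : ℝ) : ℂ) + ((yr - yp : ℝ) : ℂ) * β := by
    rw [hr, hp]; push_cast; ring
  have h2 : q - p = ((xq - xp : ℝ) : ℂ) + ((yq - yp : ℝ) : ℂ) * β := by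
    rw [hq, hp]; push_cast; ring
  have h3 : ((r - p) * starRingEnd ℂ (q - p)).im =
      ((xr - xp) * (yq - yp) - (yr - yp) * (xq - xp)) * (-β.im) := by
    rw [h1, h2]
    simp only [map_add, map_mul, Complex.conj_ofReal, Complex.mul_im, Complex.add_im,
      Complex.add_re, Complex.mul_re, Complex.ofReal_re, Complex.ofReal_im, Complex.conj_re,
      Complex.conj_im]
    ring
  have h4 : 0 < ((r - p) * starRingEnd ℂ (q - p)).im := by
    rw [h3]
    exact mul_pos h (by linarith)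
  have hne : q - p ≠ 0 := by
    intro h0
    rw [h0] at h4
    simp at h4
  unfold ht
  have h6 : (r - p) / (q - p) = ((r - p) * starRingEnd ℂ (q - p)) /
      ((Complex.normSq (q - p) : ℝ) : ℂ) := by
    rw [Complex.normSq_eq_conj_mul_self]
    have hne' : (starRingEnd ℂ) (q - p) ≠ 0 := by
      rwa [Ne, map_eq_zero]
    field_simp
  rw [h6, Complex.div_ofReal_im]
  exact div_pos h4 (Complex.normSq_pos.2 hne)

section point

variable {s : ℚ} {r : ℝ} {β : ℂ}

theorem rr_eq (hN : (0 : ℝ) < N) : rr c N (N * r - c) = r := by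
  unfold rr
  field_simp
  ring

theorem ss_eq (hF : Fam s r β) (hN : (0 : ℝ) < N) : ss c N (N * r - c) = s := by
  unfold ss
  rw [rr_eq hN, hF.real]

/-- The determinant test. -/
theorem det_pos {k k' : ℝ} (hk : 0 < k) (hk' : 0 < k') {u v : E2 × E2} {fu gu fv gv : ℝ → ℝ}
    (hu : Enc u.1 (fun y => k * fu y) ∧ Enc u.2 (fun y => k * gu y))
    (hv : Enc v.1 (fun y => k' * fv y) ∧ Enc v.2 (fun y => k' * gv y))
    (h : posE (edet u v) = true) (y : ℝ) (hy : |y| ≤ 1) : 0 < fu y * gv y - gu y * fv y := by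
  have h1 := posE_spec ((hu.1.mul hv.2).sub (hu.2.mul hv.1)) h y hy
  have h2 : 0 < (k * k') * (fu y * gv y - gu y * fv y) := by
    calc (0 : ℝ) < _ := h1
      _ = _ := by ring
  exact (mul_pos_iff_of_pos_left (mul_pos hk hk')).1 h2

theorem gpos_spec (hF : Fam s r β) (hN : (0 : ℝ) < N) (hy : |(N : ℝ) * r - c| ≤ 1) {k : ℝ}
    (hk : 0 < k) {p q t : E2 × E2} {hp hq ht' : PQ} (ep : PE c N k p hp) (eq : PE c N k q hq)
    (et : PE c N k t ht') (h : gpos p q t = true) :
    0 < ht (ev s (starRingEnd ℂ β) hp) (ev s (starRingEnd ℂ β) hq) (ev s (starRingEnd ℂ β) ht') := by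
  have hb : (starRingEnd ℂ β).im < 0 := by
    rw [Complex.conj_im]
    linarith [hF.im]
  refine ht_XY (starRingEnd ℂ β) _ _ _ _ _ _ _ _ _ hb (ev_XY hF hp) (ev_XY hF hq)
    (ev_XY hF ht') ?_
  have h1 := det_pos hk hk
    (u := psu t p) (v := psu q p)
    (fu := fun y => cX (rr c N y) (ss c N y) ht' - cX (rr c N y) (ss c N y) hp)
    (gu := fun y => cY (rr c N y) (ss c N y) ht' - cY (rr c N y) (ss c N y) hp)
    (fv := fun y => cX (rr c N y) (ss c N y) hq - cX (rr c N y) (ss c N y) hp)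
    (gv := fun y => cY (rr c N y) (ss c N y) hq - cY (rr c N y) (ss c N y) hp)
    ⟨(et.1.sub ep.1).congr (fun t => by ring), (et.2.sub ep.2).congr (fun t => by ring)⟩
    ⟨(eq.1.sub ep.1).congr (fun t => by ring), (eq.2.sub ep.2).congr (fun t => by ring)⟩ h
    (N * r - c) hy
  simp only [rr_eq hN, ss_eq hF hN] at h1
  exact h1

theorem zpos_spec (hF : Fam s r β) (hN : (0 : ℝ) < N) (hy : |(N : ℝ) * r - c| ≤ 1) {k k' : ℝ}
    (hk : 0 < k) (hk' : 0 < k') {p q : E2 × E2} {hp hq : PQ} (ep : PE c N k p hp)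
    (eq : PE c N k' q hq) (h : zpos p q = true) :
    0 < ht 0 (ev s (starRingEnd ℂ β) hp) (ev s (starRingEnd ℂ β) hq) := by
  have hb : (starRingEnd ℂ β).im < 0 := by
    rw [Complex.conj_im]
    linarith [hF.im]
  refine ht_XY (starRingEnd ℂ β) _ _ _ 0 0 _ _ _ _ hb (by simp) (ev_XY hF hp) (ev_XY hF hq) ?_
  have h1 := det_pos hk' hk (u := q) (v := p) eq ep h (N * r - c) hy
  simp only [rr_eq hN, ss_eq hF hN] at h1
  linarith

theorem inv_im (p q : ℂ) (h : 0 < (p / q).im) : (q / p).im < 0 := by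
  have h1 : q / p = (p / q)⁻¹ := by rw [inv_div]
  rw [h1, Complex.inv_im]
  have h2 : p / q ≠ 0 := by rintro h0; rw [h0] at h; simp at h
  have h3 : 0 < Complex.normSq (p / q) := Complex.normSq_pos.2 h2
  exact div_neg_of_neg_of_pos (by linarith) h3

/-- The sign with respect to a direction. -/
theorem sgE_spec (hF : Fam s r β) (hN : (0 : ℝ) < N) (hy : |(N : ℝ) * r - c| ≤ 1) {k k' : ℝ}
    (hk : 0 < k) (hk' : 0 < k') {p q : E2 × E2} {hp hq : PQ} (ep : PE c N k p hp)
    (eq : PE c N k' q hq) (h : sgE p q ≠ 0) :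
    (sgE p q = 1 ∧ 0 < (ev s (starRingEnd ℂ β) hq / ev s (starRingEnd ℂ β) hp).im) ∨
    (sgE p q = -1 ∧ (ev s (starRingEnd ℂ β) hq / ev s (starRingEnd ℂ β) hp).im < 0) := by
  unfold sgE at h ⊢
  by_cases h1 : zpos p q = true
  · left
    rw [if_pos h1]
    refine ⟨rfl, ?_⟩
    have h3 := zpos_spec hF hN hy hk hk' ep eq h1
    simpa only [ht, sub_zero] using h3
  · by_cases h2 : zpos q p = true
    · right
      rw [if_neg h1, if_pos h2]
      refine ⟨rfl, ?_⟩
      have h3 := zpos_spec hF hN hy hk' hk eq ep h2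
      simp only [ht, sub_zero] at h3
      exact inv_im _ _ h3
    · rw [if_neg h1, if_neg h2] at h
      exact absurd rfl h

/-- Different points. -/
theorem nzE_spec (hF : Fam s r β) (hN : (0 : ℝ) < N) (hy : |(N : ℝ) * r - c| ≤ 1) {k : ℝ}
    {p q : E2 × E2} {hp hq : PQ} (ep : PE c N k p hp)
    (eq : PE c N k q hq) (h : nzE (psu p q) = true) :
    ev s (starRingEnd ℂ β) hp ≠ ev s (starRingEnd ℂ β) hq := by
  intro h0
  have h1 : cX r s hp = cX r s hq ∧ cY r s hp = cY r s hq := by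
    rw [ev_XY hF, ev_XY hF] at h0
    have him := congrArg Complex.im h0
    have hre := congrArg Complex.re h0
    simp only [Complex.add_im, Complex.mul_im, Complex.ofReal_im, Complex.ofReal_re,
      Complex.conj_im, Complex.conj_re, Complex.add_re, Complex.mul_re, zero_mul,
      add_zero, zero_add] at him hre
    have h2 : cY r s hp = cY r s hq := by
      have h3 : (cY r s hp - cY r s hq) * β.im = 0 := by linarith
      rcases mul_eq_zero.1 h3 with h | h
      · linarith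
      · exact absurd h hF.im.ne'
    rw [h2] at hre
    exact ⟨by linarith, h2⟩
  have e1 := ep.1.sub eq.1
  have e2 := ep.2.sub eq.2
  unfold nzE at h
  rw [Bool.or_eq_true, Bool.or_eq_true, Bool.or_eq_true] at h
  have hh : ∀ {x : E2} {f : ℝ → ℝ}, Enc x f → f (N * r - c) = 0 → ¬ posE x = true := by
    intro x f hx hf hp
    have := posE_spec hx hp _ hy
    rw [hf] at this
    exact lt_irrefl _ this
  have z1 : k * cX (rr c N (N * r - c)) (ss c N (N * r - c)) hp -
      k * cX (rr c N (N * r - c)) (ss c N (N * r - c)) hq = 0 := by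
    rw [rr_eq hN, ss_eq hF hN, h1.1, sub_self]
  have z2 : k * cY (rr c N (N * r - c)) (ss c N (N * r - c)) hp -
      k * cY (rr c N (N * r - c)) (ss c N (N * r - c)) hq = 0 := by
    rw [rr_eq hN, ss_eq hF hN, h1.2, sub_self]
  rcases h with h | h | h | h
  · exact hh e1 z1 h
  · exact hh e1.neg (by simp only [z1, neg_zero]) h
  · exact hh e2 z2 h
  · exact hh e2.neg (by simp only [z2, neg_zero]) h

end point

end Pool.Agent.Helper62.FM
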